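import Pool.Agent.DU31.Jop

set_option autoImplicit false

/-!
# DU31/Arr: the arrays of the insertion process

`arr Z ε ps` is the array for the remaining labels `ps`; the letter `Z` counts the open right slots
and the letter `Z + 1` the open left slots. `ε = 0` is the exact count.
-/

open Finset Filter Topology

namespace Pool.DU31

/-- The arrays. -/
noncomputable def arr (Z : ℕ) (ε : ℝ) : List ℕ → Multiset ℕ → ℝ
  | [] => fun κ => if 0 ∈ κ then 1 else ε
  | p :: ps => Od p Z (Od (p + 1) (Z + 1) (J (p + 1) ε (arr Z ε ps)))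

theorem arr_good {Z : ℕ} {ε : ℝ} (h0 : 0 < ε) (h1 : ε ≤ 1) :
    ∀ ps : List ℕ, (∀ p ∈ ps, p + 1 < Z) → Good Z (ps.length + 1) (arr Z ε ps) := by
  intro ps
  induction ps with
  | nil =>
    intro _
    refine ⟨?_, ?_, ?_⟩
    · intro κ _
      unfold arr
      split_ifs
      · exact one_pos
      · exact h0
    · intro κ k _ hκ
      have : κ = 0 := by
        rw [← Multiset.card_eq_zero]
        simp at hκ
        simp [hκ]
      subst this
      unfold arr
      rw [if_neg (by simp)]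
      split_ifs
      · exact h1
      · exact le_refl _
    · intro ν i v hν
      simp at hν
  | cons p ps ih =>
    intro h
    have hp := h p (List.mem_cons_self)
    have ih' := ih (fun q hq => h q (List.mem_cons_of_mem _ hq))
    have g1 := J_good ih' hp h0 h1
    have g2 := Od_good (l := p + 1) (Y := Z + 1) g1 (by omega)
    have g3 := Od_good (l := p) (Y := Z) g2 (le_refl _)
    exact g3

lemma tot_continuous {S : Multiset ℕ → Multiset (Multiset ℕ)} {a : ℝ → Multiset ℕ → ℝ}
    (h : ∀ κ, Continuous fun ε => a ε κ) (κ : Multiset ℕ) :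
    Continuous fun ε => tot S (a ε) κ := by
  unfold tot
  exact continuous_multiset_sum _ fun i _ => h i

theorem arr_continuous (Z : ℕ) : ∀ (ps : List ℕ) (κ : Multiset ℕ),
    Continuous fun ε => arr Z ε ps κ := by
  intro ps
  induction ps with
  | nil =>
    intro κ
    unfold arr
    by_cases h : 0 ∈ κ
    · simp only [if_pos h]
      exact continuous_const
    · simp only [if_neg h]
      exact continuous_id
  | cons p ps ih =>
    have hJ : ∀ κ, Continuous fun ε => J (p + 1) ε (arr Z ε ps) κ := by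
      intro κ
      simp only [J_apply]
      refine Continuous.add (continuous_finset_sum _ fun k _ => tot_continuous ih κ) ?_
      exact continuous_id.mul (tot_continuous ih κ)
    have hO : ∀ (l Y : ℕ) (a : ℝ → Multiset ℕ → ℝ), (∀ κ, Continuous fun ε => a ε κ) →
        ∀ κ, Continuous fun ε => Od l Y (a ε) κ := by
      intro l Y a ha κ
      unfold Od
      simp only [Pi.add_apply]
      exact (ha κ).add (tot_continuous ha κ)
    intro κ
    exact hO p Z _ (hO (p + 1) (Z + 1) _ hJ) κ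

lemma Good.lc {Z D : ℕ} {a : Multiset ℕ → ℝ} (ha : Good Z D a) {ν : Multiset ℕ}
    (hν : ν.card + 2 = D) (x y : ℕ) :
    a (x ::ₘ x ::ₘ ν) * a (y ::ₘ y ::ₘ ν) ≤ a (x ::ₘ y ::ₘ ν) ^ 2 := by
  set g := a (x ::ₘ x ::ₘ ν) with hg
  have hg0 : 0 < g := ha.pos _ (by simp; omega)
  set m := a (x ::ₘ y ::ₘ ν) with hm
  have h1 := ha.hyp ν x (dl y - (m / g) • dl x) hν (by
    rw [map_sub, map_smul, Lf_dl, Lf_dl, smul_eq_mul, ← hg, div_mul_cancel₀ _ hg0.ne',
      Multiset.cons_swap, ← hm, sub_self])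
  have h2 : Bf a ν (dl y - (m / g) • dl x) (dl y - (m / g) • dl x) =
      a (y ::ₘ y ::ₘ ν) - m ^ 2 / g := by
    simp only [map_sub, map_smul, LinearMap.sub_apply, LinearMap.smul_apply, Bf_dl, Lf_dl,
      smul_eq_mul]
    rw [Multiset.cons_swap y x ν, ← hg, ← hm]
    field_simp
    ring
  rw [h2, sub_nonpos, le_div_iff₀ hg0] at h1
  linarith

theorem arr_lc {Z : ℕ} {ps : List ℕ} (h : ∀ p ∈ ps, p + 1 < Z) {ν : Multiset ℕ}
    (hν : ν.card + 1 = ps.length) (x y : ℕ) :
    arr Z 0 ps (x ::ₘ x ::ₘ ν) * arr Z 0 ps (y ::ₘ y ::ₘ ν) ≤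
      arr Z 0 ps (x ::ₘ y ::ₘ ν) ^ 2 := by
  have hu : Tendsto (fun n : ℕ => 1 / ((n : ℝ) + 1)) atTop (𝓝 0) :=
    tendsto_one_div_add_atTop_nhds_zero_nat
  have c : ∀ κ, Tendsto (fun n : ℕ => arr Z (1 / ((n : ℝ) + 1)) ps κ) atTop
      (𝓝 (arr Z 0 ps κ)) := fun κ => ((arr_continuous Z ps κ).tendsto 0).comp hu
  refine le_of_tendsto_of_tendsto' ((c _).mul (c _)) ((c _).pow 2) fun n => ?_
  have h0 : (0 : ℝ) < 1 / ((n : ℝ) + 1) := by positivity
  have h1 : 1 / ((n : ℝ) + 1) ≤ 1 := by
    rw [div_le_one (by positivity)]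
    have : (0 : ℝ) ≤ n := Nat.cast_nonneg n
    linarith
  exact (arr_good h0 h1 ps h).lc (by omega) x y

end Pool.DU31
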