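import Pool.Agent.DU31.Arr

set_option autoImplicit false

/-!
# DU31/Cm: the counting polynomials of the insertion process

`cm ps κ` counts the completions by the remaining labels `ps` of a state whose open slots have the
zones `κ`; `X` marks the closed right slots.
-/

open Finset Polynomial

namespace Pool.DU31

/-- The counting polynomials. -/
noncomputable def cm : List ℕ → Multiset ℕ → ℕ[X]
  | [] => fun κ => if κ = {0} then 1 else 0
  | p :: ps => fun κ => ∑ k ∈ range (p + 1), tot (Sg (p + 1) k) (fun m =>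
      X * (cm ps m + cm ps ((p + 1) ::ₘ m)) + (cm ps (k ::ₘ m) + cm ps (k ::ₘ (p + 1) ::ₘ m))) κ

lemma cm_nil (κ : Multiset ℕ) : cm [] κ = if κ = {0} then 1 else 0 := rfl

lemma cm_cons_def (p : ℕ) (ps : List ℕ) (κ : Multiset ℕ) :
    cm (p :: ps) κ = ∑ k ∈ range (p + 1), tot (Sg (p + 1) k) (fun m =>
      X * (cm ps m + cm ps ((p + 1) ::ₘ m)) +
        (cm ps (k ::ₘ m) + cm ps (k ::ₘ (p + 1) ::ₘ m))) κ := rfl

/-- The exact insertion operator. -/
noncomputable def jj {M : Type*} [AddCommMonoid M] (σ : ℕ) (F : Multiset ℕ → M)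
    (κ : Multiset ℕ) : M := ∑ k ∈ range σ, tot (Sg σ k) F κ

lemma tot_add {M : Type*} [AddCommMonoid M] (S : Multiset ℕ → Multiset (Multiset ℕ))
    (F G : Multiset ℕ → M) (κ : Multiset ℕ) :
    tot S (fun m => F m + G m) κ = tot S F κ + tot S G κ := by
  unfold tot
  exact Multiset.sum_map_add

lemma tot_mul (S : Multiset ℕ → Multiset (Multiset ℕ)) (c : ℕ[X])
    (F : Multiset ℕ → ℕ[X]) (κ : Multiset ℕ) :
    tot S (fun m => c * F m) κ = c * tot S F κ := by
  unfold tot
  exact Multiset.sum_map_mul_left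

lemma tot_congr {M : Type*} [AddCommMonoid M] {S : Multiset ℕ → Multiset (Multiset ℕ)}
    {F G : Multiset ℕ → M} {κ : Multiset ℕ} (h : ∀ m ∈ S κ, F m = G m) :
    tot S F κ = tot S G κ := by
  unfold tot
  rw [Multiset.map_congr rfl h]

lemma tot_hom {M N : Type*} [AddCommMonoid M] [AddCommMonoid N] (φ : M →+ N)
    (S : Multiset ℕ → Multiset (Multiset ℕ)) (F : Multiset ℕ → M) (κ : Multiset ℕ) :
    φ (tot S F κ) = tot S (fun m => φ (F m)) κ := by
  unfold tot
  rw [map_multiset_sum, Multiset.map_map]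
  rfl

lemma coeff_tot (d : ℕ) (S : Multiset ℕ → Multiset (Multiset ℕ)) (F : Multiset ℕ → ℕ[X])
    (κ : Multiset ℕ) : (tot S F κ).coeff d = tot S (fun m => (F m).coeff d) κ :=
  tot_hom (lcoeff ℕ d).toAddMonoidHom S F κ

lemma tot_eq_zero {M : Type*} [AddCommMonoid M] {S : Multiset ℕ → Multiset (Multiset ℕ)}
    {F : Multiset ℕ → M} {κ : Multiset ℕ} (h : ∀ m ∈ S κ, F m = 0) : tot S F κ = 0 := by
  rw [tot_congr (G := fun _ => 0) h]
  unfold tot
  simp

/-- Letters of the results. -/
lemma mem_of_mem_Sg {σ k : ℕ} {κ m : Multiset ℕ} (h : m ∈ Sg σ k κ) {i : ℕ} (hi : i ∈ m) :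
    k ∈ κ ∧ (i ∈ κ ∨ i = σ) := by
  unfold Sg at h
  rw [Multiset.mem_map] at h
  obtain ⟨t, ht, rfl⟩ := h
  rw [Multiset.mem_range] at ht
  have hk : k ∈ κ := Multiset.count_pos.1 (by omega)
  refine ⟨hk, ?_⟩
  unfold nu bas at hi
  rw [Multiset.mem_add, Multiset.mem_add, Multiset.mem_map] at hi
  rcases hi with (⟨j, hj, rfl⟩ | hi) | hi
  · unfold P
    split_ifs
    · exact Or.inr rfl
    · exact Or.inl (Multiset.mem_filter.1 hj).1
  · rw [Multiset.mem_replicate] at hi
    rw [hi.2]
    exact Or.inl hk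
  · rw [Multiset.mem_replicate] at hi
    exact Or.inr hi.2

lemma mem_Sg_mem {σ k : ℕ} {κ m : Multiset ℕ} (h : m ∈ Sg σ k κ) : k ∈ κ := by
  unfold Sg at h
  rw [Multiset.mem_map] at h
  obtain ⟨t, ht, rfl⟩ := h
  rw [Multiset.mem_range] at ht
  exact Multiset.count_pos.1 (by omega)

lemma cm_zero : ∀ (ps : List ℕ) (κ : Multiset ℕ), 0 ∉ κ → cm ps κ = 0 := by
  intro ps
  induction ps with
  | nil =>
    intro κ h
    unfold cm
    rw [if_neg]
    rintro rfl
    simp at h
  | cons p ps ih =>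
    intro κ h
    unfold cm
    refine Finset.sum_eq_zero fun k _ => tot_eq_zero fun m hm => ?_
    have hk : k ≠ 0 := by
      rintro rfl
      exact h (mem_Sg_mem hm)
    have h0 : 0 ∉ m := by
      intro h0
      rcases (mem_of_mem_Sg hm h0).2 with h1 | h1
      · exact h h1
      · omega
    have h1 : 0 ∉ (p + 1) ::ₘ m := by
      rw [Multiset.mem_cons]
      rintro (h2 | h2)
      · omega
      · exact h0 h2
    have h2 : 0 ∉ k ::ₘ m := by
      rw [Multiset.mem_cons]
      rintro (h2 | h2)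
      · exact hk h2.symm
      · exact h0 h2
    have h3 : 0 ∉ k ::ₘ (p + 1) ::ₘ m := by
      rw [Multiset.mem_cons]
      rintro (h2 | h2)
      · exact hk h2.symm
      · exact h1 h2
    rw [ih _ h0, ih _ h1, ih _ h2, ih _ h3]
    simp

lemma tele_sum {M : Type*} [AddCommMonoid M] (σ : ℕ) (F : Multiset ℕ → M) (κ : Multiset ℕ) :
    ∀ q, q ≤ σ → ∑ k ∈ range q, tot (Sg σ k) (fun m => F (k ::ₘ m)) κ + F (cl σ 0 κ) =
      ∑ k ∈ range q, tot (Sg σ k) (fun m => F (σ ::ₘ m)) κ + F (cl σ q κ) := by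
  intro q
  induction q with
  | zero => intro _; simp
  | succ q ih =>
    intro hq
    have h1 := ih (by omega)
    have h2 := tele σ q (by omega) F κ
    rw [Finset.sum_range_succ, Finset.sum_range_succ]
    calc _ = (∑ k ∈ range q, tot (Sg σ k) (fun m => F (k ::ₘ m)) κ + F (cl σ 0 κ)) +
          tot (Sg σ q) (fun m => F (q ::ₘ m)) κ := by abel
      _ = ∑ k ∈ range q, tot (Sg σ k) (fun m => F (σ ::ₘ m)) κ +
          (tot (Sg σ q) (fun m => F (q ::ₘ m)) κ + F (cl σ q κ)) := by rw [h1]; abel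
      _ = _ := by rw [h2]; abel

lemma jj_sigma {M : Type*} [AddCommMonoid M] (σ : ℕ) (F : Multiset ℕ → M) (κ : Multiset ℕ) :
    jj σ F (σ ::ₘ κ) = jj σ (fun m => F (σ ::ₘ m)) κ := by
  unfold jj
  refine Finset.sum_congr rfl fun k hk => ?_
  rw [Finset.mem_range] at hk
  rw [tot_cons_G hk, if_neg (by omega), add_zero]
  have : P σ (k + 1) σ = σ := by unfold P; rw [if_neg (by omega)]
  rw [this]

lemma jj_last {M : Type*} [AddCommMonoid M] (p : ℕ) (F : Multiset ℕ → M) (κ : Multiset ℕ) :
    ∑ k ∈ range (p + 1), tot (Sg (p + 1) k) (fun m => F (k ::ₘ m)) κ + F (cl (p + 1) 0 κ) =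
      jj (p + 1) F (p ::ₘ κ) := by
  have h1 := tele_sum (p + 1) F κ p (Nat.le_succ p)
  rw [Finset.sum_range_succ]
  unfold jj
  rw [Finset.sum_range_succ]
  have h2 : ∑ k ∈ range p, tot (Sg (p + 1) k) F (p ::ₘ κ) =
      ∑ k ∈ range p, tot (Sg (p + 1) k) (fun m => F ((p + 1) ::ₘ m)) κ := by
    refine Finset.sum_congr rfl fun k hk => ?_
    rw [Finset.mem_range] at hk
    rw [tot_cons_G (by omega), if_neg (by omega), add_zero]
    have : P (p + 1) (k + 1) p = p + 1 := by unfold P; rw [if_pos (by omega)]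
    rw [this]
  rw [h2, tot_cons_G (Nat.lt_succ_self p), if_pos rfl, P_succ_self]
  calc _ = (∑ k ∈ range p, tot (Sg (p + 1) k) (fun m => F (k ::ₘ m)) κ + F (cl (p + 1) 0 κ)) +
        tot (Sg (p + 1) p) (fun m => F (p ::ₘ m)) κ := by abel
    _ = _ := by rw [h1]; abel

lemma zero_not_mem_cl (p : ℕ) (κ : Multiset ℕ) : 0 ∉ cl (p + 1) 0 κ := by
  unfold cl
  rw [Multiset.mem_map]
  rintro ⟨i, _, hi⟩
  unfold P at hi
  split_ifs at hi with h
  omega

/-- The recursion with slots added before the insertion. -/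
theorem cm_cons (p : ℕ) (ps : List ℕ) (κ : Multiset ℕ) :
    cm (p :: ps) κ = X * (jj (p + 1) (cm ps) κ + jj (p + 1) (cm ps) ((p + 1) ::ₘ κ)) +
      (jj (p + 1) (cm ps) (p ::ₘ κ) + jj (p + 1) (cm ps) ((p + 1) ::ₘ p ::ₘ κ)) := by
  have h1 := jj_last p (cm ps) κ
  rw [cm_zero ps _ (zero_not_mem_cl p κ), add_zero] at h1
  have h2 := jj_last p (fun m => cm ps ((p + 1) ::ₘ m)) κ
  have h3 : cm ps ((p + 1) ::ₘ cl (p + 1) 0 κ) = 0 := by
    apply cm_zero
    rw [Multiset.mem_cons]
    rintro (h | h)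
    · omega
    · exact zero_not_mem_cl p κ h
  simp only [h3, add_zero] at h2
  rw [jj_sigma, jj_sigma, ← h1, ← h2, cm_cons_def]
  unfold jj
  simp only [tot_add, tot_mul, Finset.sum_add_distrib, Finset.mul_sum, mul_add]
  have h4 : ∀ k ∈ range (p + 1), tot (Sg (p + 1) k) (fun m => cm ps (k ::ₘ (p + 1) ::ₘ m)) κ =
      tot (Sg (p + 1) k) (fun m => cm ps ((p + 1) ::ₘ k ::ₘ m)) κ := fun k _ =>
    tot_congr fun m _ => by rw [Multiset.cons_swap]
  rw [Finset.sum_congr rfl h4]

/-- Degree bound. -/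
lemma cm_coeff_high : ∀ (ps : List ℕ) (κ : Multiset ℕ) (d : ℕ), ps.length < d →
    (cm ps κ).coeff d = 0 := by
  intro ps
  induction ps with
  | nil =>
    intro κ d hd
    unfold cm
    split_ifs
    · rw [coeff_one, if_neg]
      simp at hd
      omega
    · simp
  | cons p ps ih =>
    intro κ d hd
    rw [List.length_cons] at hd
    unfold cm
    rw [finsetSum_coeff]
    refine Finset.sum_eq_zero fun k _ => ?_
    obtain ⟨e, rfl⟩ : ∃ e, d = e + 1 := ⟨d - 1, by omega⟩
    rw [coeff_tot]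
    refine tot_eq_zero fun m _ => ?_
    rw [coeff_add, coeff_X_mul, coeff_add, coeff_add, ih _ _ (by omega), ih _ _ (by omega),
      ih _ _ (by omega), ih _ _ (by omega)]
    simp

/-- Order bound. -/
lemma cm_coeff_low : ∀ (ps : List ℕ) (κ : Multiset ℕ) (d : ℕ), d + 1 < κ.card →
    (cm ps κ).coeff d = 0 := by
  intro ps
  induction ps with
  | nil =>
    intro κ d hd
    unfold cm
    rw [if_neg]
    · simp
    · rintro rfl
      simp at hd
  | cons p ps ih =>
    intro κ d hd
    unfold cm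
    rw [finsetSum_coeff]
    refine Finset.sum_eq_zero fun k _ => ?_
    rw [coeff_tot]
    refine tot_eq_zero fun m hm => ?_
    have hc := mem_Sg hm
    rw [coeff_add, coeff_add, ih (k ::ₘ m) d (by simp; omega),
      ih (k ::ₘ (p + 1) ::ₘ m) d (by simp; omega)]
    rcases d with _ | e
    · simp
    · rw [coeff_X_mul, coeff_add, ih m e (by omega), ih ((p + 1) ::ₘ m) e (by simp; omega)]
      simp

/-- The coefficient as a real number. -/
noncomputable def cf (d : ℕ) : ℕ[X] →+ ℝ :=
  (Nat.castAddMonoidHom ℝ).comp (lcoeff ℕ d).toAddMonoidHom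

lemma cf_apply (d : ℕ) (f : ℕ[X]) : cf d f = (f.coeff d : ℝ) := rfl

lemma cf_X_mul (d : ℕ) (f : ℕ[X]) : cf (d + 1) (X * f) = cf d f := by
  rw [cf_apply, cf_apply, coeff_X_mul]

lemma cf_X_mul_zero (f : ℕ[X]) : cf 0 (X * f) = 0 := by
  rw [cf_apply]
  simp

/-- Add open slots of the two kinds. -/
def hat (Z : ℕ) (κ : Multiset ℕ) (s t : ℕ) : Multiset ℕ :=
  κ + Multiset.replicate s Z + Multiset.replicate t (Z + 1)

lemma hat_succ_left (Z : ℕ) (κ : Multiset ℕ) (s t : ℕ) :
    hat Z κ (s + 1) t = Z ::ₘ hat Z κ s t := by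
  unfold hat
  rw [Multiset.replicate_succ, Multiset.add_cons, Multiset.cons_add]

lemma hat_succ_right (Z : ℕ) (κ : Multiset ℕ) (s t : ℕ) :
    hat Z κ s (t + 1) = (Z + 1) ::ₘ hat Z κ s t := by
  unfold hat
  rw [Multiset.replicate_succ, Multiset.add_cons]

lemma hat_cons (Z : ℕ) (κ : Multiset ℕ) (s t i : ℕ) :
    hat Z (i ::ₘ κ) s t = i ::ₘ hat Z κ s t := by
  unfold hat
  rw [Multiset.cons_add, Multiset.cons_add]

lemma hat_zero (Z : ℕ) (κ : Multiset ℕ) : hat Z κ 0 0 = κ := by
  unfold hat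
  simp

lemma card_hat (Z : ℕ) (κ : Multiset ℕ) (s t : ℕ) : (hat Z κ s t).card = κ.card + s + t := by
  unfold hat
  simp

lemma tot_hat {M : Type*} [AddCommMonoid M] {Z σ k : ℕ} (hk : k < σ) (hσ : σ < Z) :
    ∀ (s t : ℕ) (F : Multiset ℕ → M) (κ : Multiset ℕ),
    tot (Sg σ k) F (hat Z κ s t) = tot (Sg σ k) (fun m => F (hat Z m s t)) κ := by
  have h1 : ∀ (i : ℕ), σ < i → ∀ (F : Multiset ℕ → M) (κ : Multiset ℕ),
      tot (Sg σ k) F (i ::ₘ κ) = tot (Sg σ k) (fun m => F (i ::ₘ m)) κ := by
    intro i hi F κ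
    rw [tot_cons_G hk, if_neg (by omega), add_zero]
    have : P σ (k + 1) i = i := by unfold P; rw [if_neg (by omega)]
    rw [this]
  intro s
  induction s with
  | zero =>
    intro t
    induction t with
    | zero => intro F κ; simp only [hat_zero]
    | succ t ih =>
      intro F κ
      rw [hat_succ_right, h1 _ (by omega), ih]
      simp only [hat_succ_right]
  | succ s ih =>
    intro t F κ
    rw [hat_succ_left, h1 _ hσ, ih]
    simp only [hat_succ_left]

lemma count_hat_left {Z : ℕ} {κ : Multiset ℕ} (h : ∀ i ∈ κ, i < Z) (s t : ℕ) :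
    (hat Z κ s t).count Z = s := by
  unfold hat
  rw [Multiset.count_add, Multiset.count_add, Multiset.count_replicate_self,
    Multiset.count_replicate, if_neg (by omega), Multiset.count_eq_zero.2]
  · omega
  · intro h1
    exact lt_irrefl _ (h Z h1)

lemma count_hat_right {Z : ℕ} {κ : Multiset ℕ} (h : ∀ i ∈ κ, i < Z) (s t : ℕ) :
    (hat Z κ s t).count (Z + 1) = t := by
  unfold hat
  rw [Multiset.count_add, Multiset.count_add, Multiset.count_replicate_self,
    Multiset.count_replicate, if_neg (by omega), Multiset.count_eq_zero.2]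
  · omega
  · intro h1
    have := h _ h1
    omega

lemma tot_Sd {l Y c : ℕ} {κ : Multiset ℕ} (F : Multiset ℕ → ℝ) (h : κ.count Y = c) :
    tot (Sd l Y) F κ = c * F (l ::ₘ κ.erase Y) := by
  unfold tot Sd
  rw [h, Multiset.map_replicate, Multiset.sum_replicate, nsmul_eq_mul]

/-- The arrays are the normalised coefficients of the counting polynomials. -/
theorem arr_eq {Z : ℕ} (hZ : 0 < Z) : ∀ (ps : List ℕ), (∀ p ∈ ps, p + 1 < Z) →
    ∀ (κ : Multiset ℕ) (s t : ℕ), (∀ i ∈ κ, i < Z) → κ.card + s + t = ps.length + 1 →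
    arr Z 0 ps (hat Z κ s t) =
      (s.factorial : ℝ) * t.factorial * cf (ps.length + 1 - s) (X * cm ps κ) := by
  intro ps
  induction ps with
  | nil =>
    intro _ κ s t hκ hc
    rw [List.length_nil] at hc ⊢
    unfold arr
    rcases Nat.eq_zero_or_pos s with hs | hs
    · rcases Nat.eq_zero_or_pos t with ht | ht
      · subst hs ht
        have h1 : κ.card = 1 := by omega
        obtain ⟨i, rfl⟩ := Multiset.card_eq_one.1 h1
        rw [hat_zero, show 0 + 1 - 0 = 0 + 1 by rfl, cf_X_mul, cf_apply]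
        unfold cm
        by_cases hi : i = 0
        · subst hi
          simp
        · rw [if_neg (by simpa using Ne.symm hi), if_neg (by simpa using hi)]
          simp
      · have hκ0 : κ = 0 := by rw [← Multiset.card_eq_zero]; omega
        have ht1 : t = 1 := by omega
        subst hs ht1 hκ0
        unfold cm
        rw [if_neg (by simp [hat]), if_neg (by simp)]
        simp
    · have hκ0 : κ = 0 := by rw [← Multiset.card_eq_zero]; omega
      have ht1 : t = 0 := by omega
      have hs1 : s = 1 := by omega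
      subst hs1 ht1 hκ0
      unfold cm
      rw [if_neg (by simp [hat]; omega), if_neg (by simp)]
      simp
  | cons p ps ih =>
    intro hps κ s t hκ hc
    rw [List.length_cons] at hc ⊢
    have hp : p + 1 < Z := hps p List.mem_cons_self
    have ih' := ih (fun q hq => hps q (List.mem_cons_of_mem _ hq))
    set n := ps.length with hn
    set F := cm ps with hF
    -- the insertion
    have H1 : ∀ (κ : Multiset ℕ) (s t : ℕ), (∀ i ∈ κ, i < Z) → κ.card + s + t = n + 2 →
        J (p + 1) 0 (arr Z 0 ps) (hat Z κ s t) =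
          (s.factorial : ℝ) * t.factorial * cf (n + 1 - s) (X * jj (p + 1) F κ) := by
      intro κ s t hκ hc
      rw [J_apply, zero_mul, add_zero]
      have h2 : cf (n + 1 - s) (X * jj (p + 1) F κ) =
          ∑ k ∈ range (p + 1), tot (Sg (p + 1) k) (fun m => cf (n + 1 - s) (X * F m)) κ := by
        unfold jj
        rw [Finset.mul_sum, map_sum]
        refine Finset.sum_congr rfl fun k _ => ?_
        rw [← tot_mul, tot_hom]
      rw [h2, Finset.mul_sum]
      refine Finset.sum_congr rfl fun k hk => ?_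
      rw [Finset.mem_range] at hk
      rw [tot_hat hk hp]
      have h3 : (s.factorial : ℝ) * t.factorial *
          tot (Sg (p + 1) k) (fun m => cf (n + 1 - s) (X * F m)) κ =
          tot (Sg (p + 1) k) (fun m => (s.factorial : ℝ) * t.factorial *
            cf (n + 1 - s) (X * F m)) κ := by
        unfold tot
        rw [Multiset.sum_map_mul_left]
      rw [h3]
      refine tot_congr fun m hm => ?_
      have hcard := mem_Sg hm
      refine ih' m s t (fun i hi => ?_) (by omega)
      rcases (mem_of_mem_Sg hm hi).2 with h4 | h4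
      · exact hκ i h4
      · omega
    -- the left slot
    have H2 : ∀ (κ : Multiset ℕ) (s t : ℕ), (∀ i ∈ κ, i < Z) → κ.card + s + t = n + 2 →
        Od (p + 1) (Z + 1) (J (p + 1) 0 (arr Z 0 ps)) (hat Z κ s t) =
          (s.factorial : ℝ) * t.factorial * cf (n + 1 - s)
            (X * (jj (p + 1) F κ + jj (p + 1) F ((p + 1) ::ₘ κ))) := by
      intro κ s t hκ hc
      unfold Od
      rw [Pi.add_apply, tot_Sd _ (count_hat_right hκ s t), H1 κ s t hκ hc, mul_add X, map_add,
        mul_add]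
      congr 1
      rcases t with _ | t
      · have h0 : cf (n + 1 - s) (X * jj (p + 1) F ((p + 1) ::ₘ κ)) = 0 := by
          by_cases hs : s ≤ n
          · rw [show n + 1 - s = (n - s) + 1 by omega, cf_X_mul, jj_sigma, jj, map_sum]
            refine Finset.sum_eq_zero fun k _ => ?_
            rw [tot_hom]
            refine tot_eq_zero fun m hm => ?_
            have hcard := mem_Sg hm
            rw [cf_apply, hF, cm_coeff_low ps _ (n - s) (by simp; omega)]
            simp
          · rw [show n + 1 - s = 0 by omega, cf_X_mul_zero]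
        rw [h0]
        simp
      · rw [hat_succ_right, Multiset.erase_cons_head, ← hat_cons, H1 _ s t (by
          intro i hi
          rcases Multiset.mem_cons.1 hi with h | h
          · omega
          · exact hκ i h) (by rw [Multiset.card_cons]; omega)]
        rw [Nat.factorial_succ]
        push_cast
        ring
    -- the right slot
    change Od p Z (Od (p + 1) (Z + 1) (J (p + 1) 0 (arr Z 0 ps))) (hat Z κ s t) = _
    set K := Od (p + 1) (Z + 1) (J (p + 1) 0 (arr Z 0 ps)) with hK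
    rw [Od, Pi.add_apply, tot_Sd _ (count_hat_left hκ s t), H2 κ s t hκ (by omega), cm_cons]
    set A := jj (p + 1) F κ + jj (p + 1) F ((p + 1) ::ₘ κ) with hA
    set B := jj (p + 1) F (p ::ₘ κ) + jj (p + 1) F ((p + 1) ::ₘ p ::ₘ κ) with hB
    clear_value A B
    rw [mul_add X, map_add, mul_add]
    congr 1
    · congr 1
      by_cases hs : s ≤ n + 1
      · rw [show n + 1 + 1 - s = (n + 1 - s) + 1 by omega, cf_X_mul]
      · rw [show n + 1 + 1 - s = 0 by omega, show n + 1 - s = 0 by omega, cf_X_mul_zero,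
          cf_X_mul_zero]
    · rcases s with _ | s
      · have h0 : cf (n + 1 + 1) (X * B) = 0 := by
          have key : ∀ κ' : Multiset ℕ, cf (n + 1) (jj (p + 1) F κ') = 0 := by
            intro κ'
            rw [jj, map_sum]
            refine Finset.sum_eq_zero fun k _ => ?_
            rw [tot_hom]
            refine tot_eq_zero fun m _ => ?_
            rw [cf_apply, hF, cm_coeff_high ps _ (n + 1) (by omega)]
            simp
          rw [cf_X_mul, hB, map_add, key, key, add_zero]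
        rw [Nat.sub_zero, h0]
        simp
      · rw [hat_succ_left, Multiset.erase_cons_head, ← hat_cons, H2 _ s t (by
          intro i hi
          rcases Multiset.mem_cons.1 hi with h | h
          · omega
          · exact hκ i h) (by rw [Multiset.card_cons]; omega), ← hB,
          show n + 1 + 1 - (s + 1) = n + 1 - s by omega]
        rw [Nat.factorial_succ]
        push_cast
        ring

/-- Ultra-log-concavity of the counting polynomial. -/
theorem cm_ulc (ps : List ℕ) {e f : ℕ} (hn : ps.length = e + f + 2) :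
    (e + 2) * (f + 2) * ((cm ps {0}).coeff e * (cm ps {0}).coeff (e + 2)) ≤
      (e + 1) * (f + 1) * (cm ps {0}).coeff (e + 1) ^ 2 := by
  obtain ⟨Z, hZ0, hZ⟩ : ∃ Z : ℕ, 0 < Z ∧ ∀ p ∈ ps, p + 1 < Z := by
    refine ⟨ps.sum + 2, by omega, fun p hp => ?_⟩
    have := List.single_le_sum (fun _ _ => Nat.zero_le _) p hp
    omega
  have hz : ∀ i ∈ ({0} : Multiset ℕ), i < Z := by
    intro i hi
    rw [Multiset.mem_singleton] at hi
    omega
  have h := arr_lc hZ (ν := hat Z {0} f e) (by rw [card_hat]; simp; omega) Z (Z + 1)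
  rw [← hat_succ_left, ← hat_succ_left, ← hat_succ_right, ← hat_succ_right, ← hat_succ_left,
    arr_eq hZ0 ps hZ {0} (f + 1 + 1) e hz (by simp; omega),
    arr_eq hZ0 ps hZ {0} f (e + 1 + 1) hz (by simp; omega),
    arr_eq hZ0 ps hZ {0} (f + 1) (e + 1) hz (by simp; omega), hn,
    show e + f + 2 + 1 - (f + 1 + 1) = e + 1 by omega,
    show e + f + 2 + 1 - f = (e + 2) + 1 by omega,
    show e + f + 2 + 1 - (f + 1) = (e + 1) + 1 by omega, cf_X_mul, cf_X_mul, cf_X_mul,
    cf_apply, cf_apply, cf_apply] at h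
  set x : ℝ := ((cm ps {0}).coeff e : ℝ) with hx
  set y : ℝ := ((cm ps {0}).coeff (e + 1) : ℝ) with hy
  set z : ℝ := ((cm ps {0}).coeff (e + 2) : ℝ) with hz'
  have hf : (0 : ℝ) < f.factorial := by exact_mod_cast Nat.factorial_pos f
  have he : (0 : ℝ) < e.factorial := by exact_mod_cast Nat.factorial_pos e
  simp only [Nat.factorial_succ] at h
  push_cast at h
  have h2 : ((f : ℝ) + 1) * (e + 1) * ((f.factorial : ℝ) * e.factorial) ^ 2 *
      (((e : ℝ) + 2) * (f + 2) * (x * z)) ≤
      ((f : ℝ) + 1) * (e + 1) * ((f.factorial : ℝ) * e.factorial) ^ 2 *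
      (((e : ℝ) + 1) * (f + 1) * y ^ 2) := by
    calc _ = _ := ?_
      _ ≤ _ := h
      _ = _ := ?_
    · ring
    · ring
  have h3 : (0 : ℝ) < ((f : ℝ) + 1) * (e + 1) * ((f.factorial : ℝ) * e.factorial) ^ 2 := by
    positivity
  have h4 := le_of_mul_le_mul_left h2 h3
  rw [hx, hy, hz'] at h4
  exact_mod_cast h4

end Pool.DU31
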