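import Pool.Agent.DU31.Words
import Pool.Agent.GT34.Gauge
import Pool.Agent.GT34.Fund
import Pool.Agent.GT34.Link
import Pool.Agent.GT34.Final

set_option autoImplicit false

/-!
# DU31/Final: descents of linear extensions of two-dimensional posets
-/

open Polynomial Pool.GT34

namespace Pool.DU31

section Ext

variable {α : Type} (lab pp : α → ℕ)

/-! ## Insertions -/

lemma mem_insL (x : α) : ∀ (r : List α) (z : ℕ) (r' : List α), r' ∈ insL pp x z r ↔
    ∃ pre post, r = pre ++ post ∧ r' = pre ++ x :: post ∧ z ≤ pp x ∧ ∀ u ∈ pre, pp u < pp x := by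
  intro r
  induction r with
  | nil =>
    intro z r'
    unfold insL
    constructor
    · intro h
      split_ifs at h with hz
      · rw [List.mem_singleton] at h
        exact ⟨[], [], rfl, h, hz, by simp⟩
      · simp at h
    · rintro ⟨pre, post, h1, h2, h3, _⟩
      rw [if_pos h3, List.mem_singleton]
      have := List.append_eq_nil_iff.1 h1.symm
      rw [this.1, this.2] at h2
      exact h2
  | cons b r ih =>
    intro z r'
    have e1 : insL pp x z (b :: r) = if z ≤ pp x then (x :: b :: r) ::
      (insL pp x (max z (pp b + 1)) r).map (List.cons b) else [] := rfl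
    rw [e1]
    constructor
    · intro h
      split_ifs at h with hz
      · rcases List.mem_cons.1 h with h | h
        · exact ⟨[], b :: r, rfl, h, hz, by simp⟩
        · rw [List.mem_map] at h
          obtain ⟨r'', h1, rfl⟩ := h
          obtain ⟨pre, post, h2, h3, h4, h5⟩ := (ih _ _).1 h1
          refine ⟨b :: pre, post, by rw [h2]; rfl, by rw [h3]; rfl, hz, fun u hu => ?_⟩
          rcases List.mem_cons.1 hu with rfl | hu
          · have := le_max_right z (pp u + 1)
            omega
          · exact h5 u hu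
      · simp at h
    · rintro ⟨pre, post, h1, h2, h3, h4⟩
      rw [if_pos h3]
      rcases pre with _ | ⟨c, pre⟩
      · rw [List.nil_append] at h1 h2
        rw [h2, ← h1]
        exact List.mem_cons_self
      · rw [List.cons_append] at h1 h2
        obtain ⟨h5, h6⟩ := List.cons.inj h1
        rw [h2, ← h5]
        apply List.mem_cons_of_mem
        apply List.mem_map_of_mem
        rw [ih]
        refine ⟨pre, post, h6, rfl, ?_, fun u hu => h4 u (List.mem_cons_of_mem _ hu)⟩
        have := h4 c List.mem_cons_self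
        rw [← h5] at this
        exact max_le h3 this

lemma nodup_insL (x : α) : ∀ (r : List α) (z : ℕ), x ∉ r → (insL pp x z r).Nodup := by
  intro r
  induction r with
  | nil =>
    intro z _
    unfold insL
    split_ifs <;> simp
  | cons b r ih =>
    intro z hx
    have e1 : insL pp x z (b :: r) = if z ≤ pp x then (x :: b :: r) ::
      (insL pp x (max z (pp b + 1)) r).map (List.cons b) else [] := rfl
    rw [e1]
    split_ifs
    · rw [List.nodup_cons]
      refine ⟨?_, (ih _ (fun h => hx (List.mem_cons_of_mem _ h))).map List.cons_injective⟩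
      intro h
      rw [List.mem_map] at h
      obtain ⟨r'', _, h2⟩ := h
      have := (List.cons.inj h2).1
      rw [this] at hx
      exact hx List.mem_cons_self
    · exact List.nodup_nil

variable [PartialOrder α]

open Classical in
/-- Reversed linear extensions. -/
noncomputable def LR (S : Finset α) : Finset (List α) := (LE S.card S).image List.reverse

lemma mem_LR (S : Finset α) (r : List α) : r ∈ LR S ↔
    r.Nodup ∧ (∀ z, z ∈ r ↔ z ∈ S) ∧ r.Pairwise (fun u v => ¬ u < v) := by
  classical
  unfold LR
  rw [Finset.mem_image]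
  constructor
  · rintro ⟨l, hl, rfl⟩
    rw [mem_LE _ _ rfl] at hl
    obtain ⟨h1, h2, h3⟩ := hl
    refine ⟨List.nodup_reverse.2 h1, fun z => ?_, ?_⟩
    · rw [List.mem_reverse, h2]
    · rw [List.pairwise_reverse]
      exact h3
  · rintro ⟨h1, h2, h3⟩
    refine ⟨r.reverse, ?_, List.reverse_reverse r⟩
    rw [mem_LE _ _ rfl]
    refine ⟨List.nodup_reverse.2 h1, fun z => ?_, ?_⟩
    · rw [List.mem_reverse, h2]
    · rw [List.pairwise_reverse]
      exact h3

variable {lab pp}

lemma mem_LR_insert (hlab : Function.Injective lab) (hpp : Function.Injective pp)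
    (hord : ∀ x y : α, x < y ↔ lab x < lab y ∧ pp y < pp x) {S : Finset α} {x : α}
    (hx : ∀ b ∈ S, lab b < lab x) [DecidableEq α] (r' : List α) :
    r' ∈ LR (insert x S) ↔ ∃ r ∈ LR S, r' ∈ insL pp x 0 r := by
  have hxS : x ∉ S := fun h => lt_irrefl _ (hx x h)
  constructor
  · intro h
    rw [mem_LR] at h
    obtain ⟨h1, h2, h3⟩ := h
    have hx' : x ∈ r' := (h2 x).2 (Finset.mem_insert_self _ _)
    obtain ⟨pre, post, rfl⟩ := List.append_of_mem hx'
    have hperm : (pre ++ x :: post).Perm (x :: (pre ++ post)) := List.perm_middle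
    have h4 := hperm.nodup_iff.1 h1
    rw [List.nodup_cons] at h4
    have hsub : (pre ++ post).Sublist (pre ++ x :: post) :=
      List.Sublist.append (List.Sublist.refl _) (List.sublist_cons_self _ _)
    have hS : ∀ z, z ∈ pre ++ post ↔ z ∈ S := by
      intro z
      constructor
      · intro hz
        have h5 := (h2 z).1 (hsub.subset hz)
        rcases Finset.mem_insert.1 h5 with rfl | h6
        · exact absurd hz h4.1
        · exact h6
      · intro hz
        have h5 := (h2 z).2 (Finset.mem_insert_of_mem hz)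
        rcases List.mem_cons.1 (hperm.subset h5) with rfl | h6
        · exact absurd hz hxS
        · exact h6
    refine ⟨pre ++ post, ?_, ?_⟩
    · rw [mem_LR]
      exact ⟨h4.2, hS, h3.sublist hsub⟩
    · rw [mem_insL]
      refine ⟨pre, post, rfl, rfl, Nat.zero_le _, fun u hu => ?_⟩
      rw [List.pairwise_append] at h3
      have h5 := h3.2.2 u hu x List.mem_cons_self
      have h6 : u ∈ S := (hS u).1 (List.mem_append_left _ hu)
      have h7 := hx u h6
      by_contra h8
      have h9 : pp u ≠ pp x := fun h => hxS (hpp h ▸ h6)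
      exact h5 ((hord u x).2 ⟨h7, by omega⟩)
  · rintro ⟨r, hr, hr'⟩
    rw [mem_LR] at hr
    obtain ⟨h1, h2, h3⟩ := hr
    obtain ⟨pre, post, rfl, rfl, _, h4⟩ := (mem_insL pp x r 0 r').1 hr'
    have hperm : (pre ++ x :: post).Perm (x :: (pre ++ post)) := List.perm_middle
    rw [mem_LR]
    refine ⟨?_, fun z => ?_, ?_⟩
    · rw [hperm.nodup_iff, List.nodup_cons]
      exact ⟨fun h => hxS ((h2 x).1 h), h1⟩
    · rw [hperm.mem_iff, List.mem_cons, h2, Finset.mem_insert]
    · rw [List.pairwise_append] at h3 ⊢
      refine ⟨h3.1, ?_, ?_⟩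
      · rw [List.pairwise_cons]
        refine ⟨fun v hv hlt => ?_, h3.2.1⟩
        have h5 := ((hord x v).1 hlt).1
        have h6 := hx v ((h2 v).1 (List.mem_append_right _ hv))
        omega
      · intro u hu v hv
        rcases List.mem_cons.1 hv with rfl | hv
        · intro hlt
          have h5 := ((hord u v).1 hlt).2
          have h6 := h4 u hu
          omega
        · exact h3.2.2 u hu v hv

lemma sum_LR_insert (hlab : Function.Injective lab) (hpp : Function.Injective pp)
    (hord : ∀ x y : α, x < y ↔ lab x < lab y ∧ pp y < pp x) {S : Finset α} {x : α}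
    (hx : ∀ b ∈ S, lab b < lab x) [DecidableEq α] (F : List α → ℕ[X]) :
    ∑ r ∈ LR S, ((insL pp x 0 r).map F).sum = ∑ r ∈ LR (insert x S), F r := by
  classical
  have hxS : x ∉ S := fun h => lt_irrefl _ (hx x h)
  have hmem : ∀ r ∈ LR S, x ∉ r := by
    intro r hr h
    exact hxS (((mem_LR S r).1 hr).2.1 x |>.1 h)
  have h1 : LR (insert x S) = (LR S).biUnion (fun r => (insL pp x 0 r).toFinset) := by
    ext r'
    rw [mem_LR_insert hlab hpp hord hx, Finset.mem_biUnion]
    simp only [List.mem_toFinset]
  rw [h1, Finset.sum_biUnion]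
  · refine Finset.sum_congr rfl fun r hr => ?_
    rw [List.sum_toFinset _ (nodup_insL pp x r 0 (hmem r hr))]
  · intro r1 hr1 r2 hr2 hne
    rw [Function.onFun, Finset.disjoint_left]
    intro r' h2 h3
    rw [List.mem_toFinset] at h2 h3
    have key : ∀ r ∈ LR S, r' ∈ insL pp x 0 r → r'.erase x = r := by
      intro r hr h
      obtain ⟨pre, post, rfl, rfl, _, _⟩ := (mem_insL pp x r 0 r').1 h
      rw [List.erase_append_right _ (fun h => hmem _ hr (List.mem_append_left _ h)),
        List.erase_cons_head]
    exact hne ((key r1 hr1 h2).symm.trans (key r2 hr2 h3))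

lemma LR_empty : LR (∅ : Finset α) = {[]} := by
  classical
  unfold LR
  simp [Pool.GT34.LE]

/-- Sum over all completions. -/
lemma sum_TW (hlab : Function.Injective lab) (hpp : Function.Injective pp)
    (hord : ∀ x y : α, x < y ↔ lab x < lab y ∧ pp y < pp x) [DecidableEq α] :
    ∀ (js : List α) (S : Finset α), js.Pairwise (fun x y => lab x < lab y) →
    (∀ x ∈ js, ∀ b ∈ S, lab b < lab x) →
    ∑ r ∈ LR S, TW lab pp js r = ∑ r ∈ LR (S ∪ js.toFinset), X ^ desR lab r := by
  intro js
  induction js with
  | nil =>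
    intro S _ _
    simp only [List.toFinset_nil, Finset.union_empty, TW_nil]
  | cons x js ih =>
    intro S hjs hS
    rw [List.pairwise_cons] at hjs
    simp only [TW_cons]
    rw [sum_LR_insert hlab hpp hord (hS x List.mem_cons_self), ih _ hjs.2]
    · rw [List.toFinset_cons, Finset.insert_union, Finset.union_insert]
    · intro y hy b hb
      rcases Finset.mem_insert.1 hb with rfl | hb
      · exact hjs.1 y hy
      · exact (hS x List.mem_cons_self b hb).trans (hjs.1 y hy)

omit [PartialOrder α] in
lemma exists_sorted (hlab : Function.Injective lab) [DecidableEq α] (S : Finset α) :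
    ∃ js : List α, js.Pairwise (fun x y => lab x < lab y) ∧ js.toFinset = S := by
  induction S using Finset.induction_on_max_value lab with
  | empty => exact ⟨[], List.Pairwise.nil, rfl⟩
  | insert a S ha hS ih =>
    obtain ⟨js, h1, h2⟩ := ih
    refine ⟨js ++ [a], ?_, ?_⟩
    · rw [List.pairwise_append]
      refine ⟨h1, List.pairwise_singleton _ _, fun x hx y hy => ?_⟩
      rw [List.mem_singleton] at hy
      subst hy
      have hx' : x ∈ S := by rw [← h2]; exact List.mem_toFinset.2 hx
      refine lt_of_le_of_ne (hS x hx') fun h => ?_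
      exact ha (hlab h ▸ hx')
    · rw [List.toFinset_append, h2]
      simp [Finset.union_comm]

/-! ## Descents -/

omit [PartialOrder α] in
lemma desR_append (x y : α) : ∀ s : List α, desR lab (s ++ [y, x]) =
    (if lab y < lab x then 1 else 0) + desR lab (s ++ [y]) := by
  intro s
  induction s with
  | nil => simp [desR]
  | cons a s ih =>
    rcases s with _ | ⟨b, s⟩
    · simp [desR]
      omega
    · have e1 : desR lab (a :: b :: s ++ [y, x]) =
          (if lab a < lab b then 1 else 0) + desR lab (b :: s ++ [y, x]) := rfl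
      have e2 : desR lab (a :: b :: s ++ [y]) =
          (if lab a < lab b then 1 else 0) + desR lab (b :: s ++ [y]) := rfl
      rw [e1, e2, ih]
      omega

omit [PartialOrder α] in
lemma desL_eq (l : List α) : ∀ x : α,
    desL (Dl (fun x => (lab x : ℤ))) x l = desR lab (x :: l).reverse := by
  induction l with
  | nil => intro x; simp [desL, desR]
  | cons y l ih =>
    intro x
    have e1 : (x :: y :: l).reverse = l.reverse ++ [y, x] := by simp
    have e2 : (y :: l).reverse = l.reverse ++ [y] := by simp
    rw [desL, ih, e1, e2, desR_append]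
    congr 1
    have : Dl (fun x => (lab x : ℤ)) x y ↔ lab y < lab x := by
      unfold Dl
      exact Nat.cast_lt
    simp only [this]

omit [PartialOrder α] in
lemma desH_eq (l : List α) : desH (Dl (fun x => (lab x : ℤ))) l = desR lab l.reverse := by
  rcases l with _ | ⟨x, l⟩
  · rfl
  · exact desL_eq l x

lemma W_eq_LR {S : Finset α} (hS : S.Nonempty) :
    W (Dl (fun x => (lab x : ℤ))) S = ∑ r ∈ LR S, X ^ desR lab r := by
  classical
  rw [W_eq_sum _ hS]
  unfold LR
  rw [Finset.sum_image (fun a _ b _ h => List.reverse_injective h)]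
  refine Finset.sum_congr rfl fun l _ => ?_
  rw [desH_eq]

omit [PartialOrder α] in
lemma desR_cons_max {x : α} {r : List α} (h : ∀ b ∈ r, lab b < lab x) :
    desR lab (x :: r) = desR lab r := by
  rcases r with _ | ⟨b, r⟩
  · rfl
  · have := h b List.mem_cons_self
    rw [desR, if_neg (by omega), zero_add]

omit [PartialOrder α] in
lemma desR_ins {x : α} {post : List α} : ∀ pre : List α, (∀ b ∈ pre ++ post, lab b < lab x) →
    desR lab (pre ++ x :: post) ≤ desR lab (pre ++ post) + 1 := by
  intro pre
  induction pre with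
  | nil =>
    intro h
    rw [List.nil_append, List.nil_append, desR_cons_max (by simpa using h)]
    omega
  | cons a pre ih =>
    intro h
    rcases pre with _ | ⟨b, pre⟩
    · have h1 : desR lab ([a] ++ x :: post) =
          (if lab a < lab x then 1 else 0) + desR lab (x :: post) := rfl
      rw [h1, desR_cons_max (fun b hb => h b (by simp [hb]))]
      have h2 : desR lab post ≤ desR lab ([a] ++ post) := by
        rcases post with _ | ⟨c, post⟩
        · exact Nat.zero_le _
        · have : desR lab ([a] ++ c :: post) =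
            (if lab a < lab c then 1 else 0) + desR lab (c :: post) := rfl
          rw [this]
          omega
      split_ifs <;> omega
    · have e1 : desR lab (a :: b :: pre ++ x :: post) =
          (if lab a < lab b then 1 else 0) + desR lab (b :: pre ++ x :: post) := rfl
      have e2 : desR lab (a :: b :: pre ++ post) =
          (if lab a < lab b then 1 else 0) + desR lab (b :: pre ++ post) := rfl
      rw [e1, e2]
      have := ih (fun c hc => h c (by
        rw [List.cons_append]
        exact List.mem_cons_of_mem _ hc))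
      omega

/-- No internal zeros. -/
lemma no_gap (hlab : Function.Injective lab) (hpp : Function.Injective pp)
    (hord : ∀ x y : α, x < y ↔ lab x < lab y ∧ pp y < pp x) [DecidableEq α] (S : Finset α) :
    ∀ r ∈ LR S, ∀ k ≤ desR lab r, ∃ r' ∈ LR S, desR lab r' = k := by
  induction S using Finset.induction_on_max_value lab with
  | empty =>
    intro r hr k hk
    rw [LR_empty, Finset.mem_singleton] at hr
    subst hr
    exact ⟨[], by rw [LR_empty, Finset.mem_singleton], by
      have : desR lab ([] : List α) = 0 := rfl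
      omega⟩
  | insert a S ha hS ih =>
    have hx : ∀ b ∈ S, lab b < lab a := fun b hb =>
      lt_of_le_of_ne (hS b hb) fun h => ha (hlab h ▸ hb)
    intro r' hr' k hk
    obtain ⟨r, hr, h1⟩ := (mem_LR_insert hlab hpp hord hx r').1 hr'
    obtain ⟨pre, post, e1, e2, _, _⟩ := (mem_insL pp a r 0 r').1 h1
    have hlt : ∀ r ∈ LR S, ∀ b ∈ r, lab b < lab a := fun r hr b hb =>
      hx b ((((mem_LR S r).1 hr).2.1 b).1 hb)
    have h2 : desR lab r' ≤ desR lab r + 1 := by
      rw [e2, e1]
      exact desR_ins pre (by rw [← e1]; exact hlt r hr)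
    by_cases h3 : k ≤ desR lab r
    · obtain ⟨r1, hr1, h4⟩ := ih r hr k h3
      refine ⟨a :: r1, ?_, ?_⟩
      · rw [mem_LR_insert hlab hpp hord hx]
        refine ⟨r1, hr1, ?_⟩
        rw [mem_insL]
        exact ⟨[], r1, rfl, rfl, Nat.zero_le _, by simp⟩
      · rw [desR_cons_max (hlt r1 hr1), h4]
    · exact ⟨r', hr', by omega⟩

end Ext

/-! ## The two realizers -/

section Main

variable {α : Type} [Fintype α] [PartialOrder α]

/-- Independence of the natural labelling. -/
lemma W_indep [Nonempty α] (ω ω' : α → ℤ) (hi : Function.Injective ω)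
    (hi' : Function.Injective ω') (hω : ∀ x y, x < y → ω x < ω y)
    (hω' : ∀ x y, x < y → ω' x < ω' y) :
    W (Dl ω) (Finset.univ : Finset α) = W (Dl ω') Finset.univ := by
  apply ev_inj (p := Fintype.card α)
  intro N
  rw [← Om_eq_ev ω hi N, ← Om_eq_ev ω' hi' N, Om_natural ω hω, Om_natural ω' hω']

/-- Ultra-log-concavity and no internal zeros for a poset given by two realizers. -/
theorem ulc_of_realizer [Nonempty α] {lab pp : α → ℕ} (hlab : Function.Injective lab)
    (hpp : Function.Injective pp) (hord : ∀ x y : α, x < y ↔ lab x < lab y ∧ pp y < pp x) :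
    (∀ e f : ℕ, Fintype.card α = e + f + 2 →
      (e + 2) * (f + 2) * ((W (Dl (fun x : α => (lab x : ℤ))) Finset.univ).coeff e *
        (W (Dl (fun x : α => (lab x : ℤ))) Finset.univ).coeff (e + 2)) ≤
      (e + 1) * (f + 1) * (W (Dl (fun x : α => (lab x : ℤ))) Finset.univ).coeff (e + 1) ^ 2) ∧
    (∀ k, (W (Dl (fun x : α => (lab x : ℤ))) Finset.univ).coeff (k + 1) ≠ 0 →
      (W (Dl (fun x : α => (lab x : ℤ))) Finset.univ).coeff k ≠ 0) ∧
    (∀ k, Fintype.card α < k →
      (W (Dl (fun x : α => (lab x : ℤ))) Finset.univ).coeff k = 0) := by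
  classical
  obtain ⟨js, h1, h2⟩ := exists_sorted hlab (Finset.univ : Finset α)
  have hnd : js.Nodup := h1.imp (fun h e => by rw [e] at h; exact lt_irrefl _ h)
  have hlen : js.length = Fintype.card α := by
    rw [← List.toFinset_card_of_nodup hnd, h2, Finset.card_univ]
  have hW : W (Dl (fun x : α => (lab x : ℤ))) Finset.univ = cm (js.map pp) {0} := by
    rw [W_eq_LR Finset.univ_nonempty, ← TW_eq_cm lab pp js h1]
    have := sum_TW hlab hpp hord js ∅ h1 (by simp)
    rw [LR_empty, Finset.sum_singleton, Finset.empty_union, h2] at this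
    exact this.symm
  refine ⟨fun e f hef => ?_, fun k hk => ?_, fun k hk => ?_⟩
  · rw [hW]
    exact cm_ulc (js.map pp) (by rw [List.length_map, hlen, hef])
  · have key : ∀ k, (W (Dl (fun x : α => (lab x : ℤ))) Finset.univ).coeff k =
        ((LR (Finset.univ : Finset α)).filter (fun r => desR lab r = k)).card := by
      intro k
      rw [W_eq_LR Finset.univ_nonempty, finsetSum_coeff, Finset.card_filter]
      refine Finset.sum_congr rfl fun l _ => ?_
      rw [coeff_X_pow]
      by_cases h : desR lab l = k
      · rw [if_pos h, if_pos h.symm]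
      · rw [if_neg h, if_neg (Ne.symm h)]
    rw [key] at hk ⊢
    obtain ⟨r, hr⟩ := Finset.card_pos.1 (Nat.pos_of_ne_zero hk)
    rw [Finset.mem_filter] at hr
    obtain ⟨r', hr', h3⟩ := no_gap hlab hpp hord Finset.univ r hr.1 k (by omega)
    have : r' ∈ (LR (Finset.univ : Finset α)).filter (fun r => desR lab r = k) :=
      Finset.mem_filter.2 ⟨hr', h3⟩
    exact (Finset.card_pos.2 ⟨r', this⟩).ne'
  · rw [hW]
    exact cm_coeff_high _ _ _ (by rw [List.length_map, hlen]; exact hk)

omit [PartialOrder α] in
lemma rank_lt {δ : Type*} [LinearOrder δ] (g : α → δ) (x y : α) :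
    (Finset.univ.filter (fun z => g z < g x)).card < (Finset.univ.filter (fun z => g z < g y)).card
      ↔ g x < g y := by
  constructor
  · intro h
    by_contra h1
    push Not at h1
    refine absurd h (not_lt.2 (Finset.card_le_card fun z hz => ?_))
    rw [Finset.mem_filter] at hz ⊢
    exact ⟨hz.1, hz.2.trans_le h1⟩
  · intro h
    apply Finset.card_lt_card
    rw [Finset.ssubset_iff_of_subset]
    · exact ⟨x, by simp [h], by simp⟩
    · intro z hz
      rw [Finset.mem_filter] at hz ⊢
      exact ⟨hz.1, hz.2.trans h⟩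

omit [PartialOrder α] in
lemma corank_lt {δ : Type*} [LinearOrder δ] (g : α → δ) (x y : α) :
    (Finset.univ.filter (fun z => g y < g z)).card < (Finset.univ.filter (fun z => g x < g z)).card
      ↔ g x < g y := by
  constructor
  · intro h
    by_contra h1
    push Not at h1
    refine absurd h (not_lt.2 (Finset.card_le_card fun z hz => ?_))
    rw [Finset.mem_filter] at hz ⊢
    exact ⟨hz.1, h1.trans_lt hz.2⟩
  · intro h
    apply Finset.card_lt_card
    rw [Finset.ssubset_iff_of_subset]
    · exact ⟨y, by simp [h], by simp⟩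
    · intro z hz
      rw [Finset.mem_filter] at hz ⊢
      exact ⟨hz.1, h.trans hz.2⟩

/-- Realizers from an embedding into the product of two chains. -/
lemma exists_realizer {β γ : Type*} [LinearOrder β] [LinearOrder γ] (r : α → β) (s : α → γ)
    (h : ∀ x y : α, x ≤ y ↔ r x ≤ r y ∧ s x ≤ s y) :
    ∃ lab pp : α → ℕ, Function.Injective lab ∧ Function.Injective pp ∧
      ∀ x y : α, x < y ↔ lab x < lab y ∧ pp y < pp x := by
  classical
  set g1 : α → β ×ₗ γ := fun x => toLex (r x, s x) with hg1
  set g2 : α → γ ×ₗ β := fun x => toLex (s x, r x) with hg2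
  have i1 : Function.Injective g1 := by
    intro x y hxy
    have h1 : (r x, s x) = (r y, s y) := toLex.injective hxy
    rw [Prod.mk.injEq] at h1
    exact le_antisymm ((h x y).2 ⟨h1.1.le, h1.2.le⟩) ((h y x).2 ⟨h1.1.ge, h1.2.ge⟩)
  have i2 : Function.Injective g2 := by
    intro x y hxy
    have h1 : (s x, r x) = (s y, r y) := toLex.injective hxy
    rw [Prod.mk.injEq] at h1
    exact le_antisymm ((h x y).2 ⟨h1.2.le, h1.1.le⟩) ((h y x).2 ⟨h1.2.ge, h1.1.ge⟩)
  refine ⟨fun x => (Finset.univ.filter (fun z => g1 z < g1 x)).card,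
    fun x => (Finset.univ.filter (fun z => g2 x < g2 z)).card, ?_, ?_, ?_⟩
  · intro x y hxy
    simp only at hxy
    by_contra hne
    rcases lt_or_gt_of_ne (i1.ne hne) with h1 | h1
    · have := (rank_lt g1 x y).2 h1
      omega
    · have := (rank_lt g1 y x).2 h1
      omega
  · intro x y hxy
    simp only at hxy
    by_contra hne
    rcases lt_or_gt_of_ne (i2.ne hne) with h1 | h1
    · have := (corank_lt g2 x y).2 h1
      omega
    · have := (corank_lt g2 y x).2 h1
      omega
  · intro x y
    simp only
    rw [rank_lt, corank_lt, hg1, hg2]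
    simp only [Prod.Lex.toLex_lt_toLex]
    constructor
    · intro hxy
      obtain ⟨h1, h2⟩ := (h x y).1 hxy.le
      have h3 : ¬ (r y ≤ r x ∧ s y ≤ s x) := fun h4 => absurd ((h y x).2 h4) hxy.not_ge
      rcases h1.lt_or_eq with h4 | h4
      · refine ⟨Or.inl h4, ?_⟩
        rcases h2.lt_or_eq with h5 | h5
        · exact Or.inl h5
        · exact Or.inr ⟨h5, h4⟩
      · rcases h2.lt_or_eq with h5 | h5
        · exact ⟨Or.inr ⟨h4, h5⟩, Or.inl h5⟩
        · exact absurd ⟨h4.ge, h5.ge⟩ h3
    · rintro ⟨h1, h2⟩
      have h3 : r x ≤ r y := by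
        rcases h1 with h1 | h1
        · exact h1.le
        · exact h1.1.le
      have h4 : s x ≤ s y := by
        rcases h2 with h2 | h2
        · exact h2.le
        · exact h2.1.le
      refine lt_of_le_of_ne ((h x y).2 ⟨h3, h4⟩) ?_
      rintro rfl
      rcases h1 with h1 | h1
      · exact lt_irrefl _ h1
      · exact lt_irrefl _ h1.2

/-- Unimodality from log-concavity without internal zeros. -/
lemma unimodal_of_lc {w : ℕ → ℕ} {n : ℕ} (h1 : ∀ k, w k * w (k + 2) ≤ w (k + 1) ^ 2)
    (h2 : ∀ k, w (k + 1) ≠ 0 → w k ≠ 0) (h3 : ∀ k, n < k → w k = 0) :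
    ∃ m : ℕ, ∀ k : ℕ, (k < m → w k ≤ w (k + 1)) ∧ (m ≤ k → w (k + 1) ≤ w k) := by
  classical
  have hex : ∃ k, w (k + 1) ≤ w k := ⟨n, by rw [h3 (n + 1) (by omega)]; exact Nat.zero_le _⟩
  refine ⟨Nat.find hex, fun k => ⟨fun hk => ?_, fun hk => ?_⟩⟩
  · have := Nat.find_min hex hk
    omega
  · induction k, hk using Nat.le_induction with
    | base => exact Nat.find_spec hex
    | succ k _ ih =>
      by_cases h0 : w k = 0
      · have h4 : w (k + 1) = 0 := by
          by_contra h
          exact h2 k h h0
        have h5 : w (k + 1 + 1) = 0 := by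
          by_contra h
          exact h2 (k + 1) h h4
        rw [h5]
        exact Nat.zero_le _
      · have h4 := h1 k
        have h5 : w k * w (k + 2) ≤ w k * w (k + 1) := by
          calc w k * w (k + 2) ≤ w (k + 1) ^ 2 := h4
            _ = w (k + 1) * w (k + 1) := by ring
            _ ≤ w k * w (k + 1) := Nat.mul_le_mul_right _ ih
        exact Nat.le_of_mul_le_mul_left h5 (Nat.pos_of_ne_zero h0)

/-- The main theorem. -/
theorem dim_two (f : α ≃ Fin (Fintype.card α)) (hf : ∀ x y : α, x < y → f x < f y)
    {β γ : Type*} [LinearOrder β] [LinearOrder γ] (r : α → β) (s : α → γ)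
    (h : ∀ x y : α, x ≤ y ↔ r x ≤ r y ∧ s x ≤ s y) :
    (∃ m : ℕ, ∀ k : ℕ, (k < m → wnum α f k ≤ wnum α f (k + 1)) ∧
      (m ≤ k → wnum α f (k + 1) ≤ wnum α f k)) ∧
    ∀ i j : ℕ, i + j + 2 = Fintype.card α →
      (i + 2) * (j + 2) * (wnum α f i * wnum α f (i + 2)) ≤
        (i + 1) * (j + 1) * wnum α f (i + 1) ^ 2 := by
  rcases isEmpty_or_nonempty α with he | hne
  · refine ⟨⟨0, fun k => ⟨fun hk => by omega, fun _ => ?_⟩⟩, fun i j hij => ?_⟩
    · rw [wnum_succ_of_isEmpty α f he]
      exact Nat.zero_le _
    · have : Fintype.card α = 0 := Fintype.card_eq_zero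
      omega
  · obtain ⟨lab, pp, hlab, hpp, hord⟩ := exists_realizer r s h
    have hW : W (Dl (fun x : α => ((f x : ℕ) : ℤ))) Finset.univ =
        W (Dl (fun x : α => (lab x : ℤ))) Finset.univ := by
      apply W_indep
      · intro x y hxy
        exact f.injective (Fin.ext (Nat.cast_injective hxy))
      · intro x y hxy
        exact hlab (Nat.cast_injective hxy)
      · intro x y hxy
        exact Nat.cast_lt.2 (Fin.lt_def.1 (hf x y hxy))
      · intro x y hxy
        exact Nat.cast_lt.2 ((hord x y).1 hxy).1
    obtain ⟨h1, h2, h3⟩ := ulc_of_realizer hlab hpp hord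
    rw [← hW] at h1 h2 h3
    have e : ∀ k, wnum α f k =
        (W (Dl (fun x => ((f x : ℕ) : ℤ))) (Finset.univ : Finset α)).coeff k :=
      fun k => link f k
    have h1' : ∀ i j : ℕ, i + j + 2 = Fintype.card α →
      (i + 2) * (j + 2) * (wnum α f i * wnum α f (i + 2)) ≤
        (i + 1) * (j + 1) * wnum α f (i + 1) ^ 2 := by
      intro i j hij
      rw [e, e, e]
      exact h1 i j hij.symm
    refine ⟨?_, h1'⟩
    apply unimodal_of_lc (n := Fintype.card α)
    · intro k
      by_cases hk : k + 2 ≤ Fintype.card α
      · obtain ⟨j, hj⟩ := Nat.exists_eq_add_of_le hk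
        have h4 := h1' k j (by omega)
        have h5 : (k + 1) * (j + 1) * (wnum α f k * wnum α f (k + 2)) ≤
            (k + 1) * (j + 1) * wnum α f (k + 1) ^ 2 := by
          refine le_trans (Nat.mul_le_mul_right _ ?_) h4
          exact Nat.mul_le_mul (by omega) (by omega)
        exact Nat.le_of_mul_le_mul_left h5 (by positivity)
      · rw [e (k + 2), h3 (k + 2) (by omega), mul_zero]
        exact Nat.zero_le _
    · intro k
      rw [e, e]
      exact h2 k
    · intro k hk
      rw [e]
      exact h3 k hk

end Main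

end Pool.DU31
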