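import Pool.Agent.DU31.Quad

set_option autoImplicit false

/-!
# DU31/Jop: the insertion operator and the opening operator
-/

open Finset

namespace Pool.DU31

/-! ## Linearity in the array -/

lemma Lf_add (a b : Multiset ℕ → ℝ) (κ : Multiset ℕ) : Lf (a + b) κ = Lf a κ + Lf b κ :=
  ext_dl fun i => by simp

lemma Lf_smul (r : ℝ) (a : Multiset ℕ → ℝ) (κ : Multiset ℕ) : Lf (r • a) κ = r • Lf a κ :=
  ext_dl fun i => by simp

lemma Bf_add (a b : Multiset ℕ → ℝ) (κ : Multiset ℕ) : Bf (a + b) κ = Bf a κ + Bf b κ :=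
  ext_dl fun i => by simp [Lf_add]

lemma Bf_smul (r : ℝ) (a : Multiset ℕ → ℝ) (κ : Multiset ℕ) : Bf (r • a) κ = r • Bf a κ :=
  ext_dl fun i => by simp [Lf_smul]

lemma Bf_zero (κ : Multiset ℕ) : Bf (0 : Multiset ℕ → ℝ) κ = 0 :=
  ext_dl fun i => by
    have : Lf (0 : Multiset ℕ → ℝ) (i ::ₘ κ) = 0 := ext_dl fun j => by simp
    simp [this]

lemma Bf_sum {ι : Type*} (s : Finset ι) (f : ι → Multiset ℕ → ℝ) (κ : Multiset ℕ) :
    Bf (∑ i ∈ s, f i) κ = ∑ i ∈ s, Bf (f i) κ := by
  classical
  induction s using Finset.induction_on with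
  | empty => simp [Bf_zero]
  | insert i s hi ih => rw [Finset.sum_insert hi, Finset.sum_insert hi, Bf_add, ih]

/-! ## Clearing zones -/

/-- Letters in `[k, σ)` go to `σ`. -/
def P (σ k i : ℕ) : ℕ := if k ≤ i ∧ i < σ then σ else i

/-- Clear the zones from `k` on. -/
def cl (σ k : ℕ) (κ : Multiset ℕ) : Multiset ℕ := κ.map (P σ k)

/-- The letters other than `k`, the zones above `k` cleared. -/
def bas (σ k : ℕ) (κ : Multiset ℕ) : Multiset ℕ := (κ.filter (· ≠ k)).map (P σ (k + 1))

/-- Remove a letter `k`, keep `t` letters `k`, move the others and all zones above `k`. -/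
def nu (σ k t : ℕ) (κ : Multiset ℕ) : Multiset ℕ :=
  bas σ k κ + Multiset.replicate t k + Multiset.replicate (κ.count k - 1 - t) σ

/-- Remove nothing, keep `t` letters `k`, move the others and all zones above `k`. -/
def kap (σ k t : ℕ) (κ : Multiset ℕ) : Multiset ℕ :=
  bas σ k κ + Multiset.replicate t k + Multiset.replicate (κ.count k - t) σ

/-- All the results of removing a letter `k`. -/
def Sg (σ k : ℕ) (κ : Multiset ℕ) : Multiset (Multiset ℕ) :=
  (Multiset.range (κ.count k)).map (fun t => nu σ k t κ)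

lemma P_self (σ i : ℕ) : P σ σ i = i := by
  unfold P
  split_ifs with h
  · omega
  · rfl

lemma P_of_ne {σ k i : ℕ} (h : i ≠ k) : P σ (k + 1) i = P σ k i := by
  unfold P
  by_cases h1 : k ≤ i ∧ i < σ
  · rw [if_pos h1, if_pos ⟨by omega, h1.2⟩]
  · rw [if_neg h1, if_neg (by omega)]

lemma P_succ_self (σ k : ℕ) : P σ (k + 1) k = k := by
  unfold P
  rw [if_neg (by omega)]

lemma P_eq {σ k : ℕ} (h : k < σ) : P σ k k = σ := by
  unfold P
  rw [if_pos ⟨le_refl _, h⟩]

lemma cl_self (σ : ℕ) (κ : Multiset ℕ) : cl σ σ κ = κ := by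
  unfold cl
  rw [Multiset.map_congr rfl (fun i _ => P_self σ i), Multiset.map_id']

lemma card_cl (σ k : ℕ) (κ : Multiset ℕ) : (cl σ k κ).card = κ.card := Multiset.card_map _ _

lemma cl_eq {σ k : ℕ} (h : k < σ) (κ : Multiset ℕ) : kap σ k 0 κ = cl σ k κ := by
  unfold kap cl bas
  conv_rhs => rw [← Multiset.filter_add_not (fun i => i = k) κ]
  rw [Multiset.map_add, Multiset.filter_eq', Multiset.map_replicate, P_eq h, add_comm,
    Nat.sub_zero]
  congr 1
  rw [Multiset.replicate_zero, add_zero]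
  refine Multiset.map_congr rfl fun i hi => ?_
  exact P_of_ne (Multiset.mem_filter.1 hi).2

lemma cl_succ_eq (σ k : ℕ) (κ : Multiset ℕ) : kap σ k (κ.count k) κ = cl σ (k + 1) κ := by
  unfold kap cl bas
  conv_rhs => rw [← Multiset.filter_add_not (fun i => i = k) κ]
  rw [Multiset.map_add, Multiset.filter_eq', Multiset.map_replicate, P_succ_self,
    Nat.sub_self, Multiset.replicate_zero, add_zero, add_comm]

lemma card_bas (σ k : ℕ) (κ : Multiset ℕ) : (bas σ k κ).card + κ.count k = κ.card := by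
  unfold bas
  rw [Multiset.card_map]
  conv_rhs => rw [← Multiset.filter_add_not (fun i => i = k) κ]
  rw [Multiset.card_add, Multiset.filter_eq', Multiset.card_replicate, add_comm]

lemma card_nu {σ k t : ℕ} {κ : Multiset ℕ} (ht : t < κ.count k) :
    (nu σ k t κ).card + 1 = κ.card := by
  unfold nu
  rw [Multiset.card_add, Multiset.card_add, Multiset.card_replicate, Multiset.card_replicate]
  have := card_bas σ k κ
  omega

lemma card_kap {σ k t : ℕ} {κ : Multiset ℕ} (ht : t ≤ κ.count k) :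
    (kap σ k t κ).card = κ.card := by
  unfold kap
  rw [Multiset.card_add, Multiset.card_add, Multiset.card_replicate, Multiset.card_replicate]
  have := card_bas σ k κ
  omega

lemma cons_nu_right {σ k t : ℕ} {κ : Multiset ℕ} (ht : t < κ.count k) :
    σ ::ₘ nu σ k t κ = kap σ k t κ := by
  unfold nu kap
  rw [← Multiset.add_cons, show κ.count k - t = (κ.count k - 1 - t) + 1 by omega,
    Multiset.replicate_succ]

lemma cons_nu_left {σ k t : ℕ} {κ : Multiset ℕ} (ht : t < κ.count k) :
    k ::ₘ nu σ k t κ = kap σ k (t + 1) κ := by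
  unfold nu kap
  rw [← Multiset.cons_add, ← Multiset.add_cons, ← Multiset.replicate_succ,
    show κ.count k - 1 - t = κ.count k - (t + 1) by omega]

lemma range_shift {β : Type*} (f : ℕ → β) (c : ℕ) :
    (Multiset.range (c + 1)).map f = f 0 ::ₘ (Multiset.range c).map (fun t => f (t + 1)) := by
  unfold Multiset.range
  rw [List.range_succ_eq_map, Multiset.map_coe, List.map_cons, List.map_map, Multiset.map_coe]
  rfl

lemma mem_Sg {σ k : ℕ} {κ m : Multiset ℕ} (h : m ∈ Sg σ k κ) : m.card + 1 = κ.card := by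
  unfold Sg at h
  rw [Multiset.mem_map] at h
  obtain ⟨t, ht, rfl⟩ := h
  exact card_nu (Multiset.mem_range.1 ht)

/-- The operator of zone `k`. -/
def opG (σ k : ℕ) (hk : k < σ) : Op where
  S := Sg σ k
  Q := P σ (k + 1)
  χ := fun i => i = k
  dec := fun i => inferInstance
  ρ := cl σ k
  R := P σ k
  hS := by
    intro i κ
    by_cases h : i = k
    · subst h
      rw [if_pos rfl]
      unfold Sg
      rw [Multiset.count_cons_self, range_shift, Multiset.map_map, add_comm,
        Multiset.singleton_add]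
      have hb : bas σ i (i ::ₘ κ) = bas σ i κ := by
        unfold bas
        rw [Multiset.filter_cons_of_neg _ (by simp)]
      congr 1
      · rw [← cl_eq hk]
        unfold nu kap
        rw [hb, Multiset.count_cons_self]
        simp
      · refine Multiset.map_congr rfl fun t ht => ?_
        rw [Multiset.mem_range] at ht
        simp only [Function.comp]
        rw [P_succ_self, cons_nu_left ht]
        unfold nu kap
        rw [hb, Multiset.count_cons_self]
        congr 2
    · rw [if_neg h, add_zero]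
      unfold Sg
      rw [Multiset.count_cons_of_ne (Ne.symm h), Multiset.map_map]
      refine Multiset.map_congr rfl fun t _ => ?_
      simp only [Function.comp]
      unfold nu bas
      rw [Multiset.filter_cons_of_pos (p := fun j => j ≠ k) κ h, Multiset.map_cons,
        Multiset.count_cons_of_ne (Ne.symm h), Multiset.cons_add, Multiset.cons_add]
  hρ := by
    intro i κ
    unfold cl
    rw [Multiset.map_cons]

/-- All the results of removing a letter `≥ σ`. -/
def Sh (σ : ℕ) (κ : Multiset ℕ) : Multiset (Multiset ℕ) :=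
  (κ.filter (fun l => σ ≤ l)).map (fun l => κ.erase l)

lemma mem_Sh {σ : ℕ} {κ m : Multiset ℕ} (h : m ∈ Sh σ κ) : ∃ l ∈ κ, m = κ.erase l := by
  unfold Sh at h
  rw [Multiset.mem_map] at h
  obtain ⟨l, hl, rfl⟩ := h
  exact ⟨l, (Multiset.mem_filter.1 hl).1, rfl⟩

/-- The operator of the letters `≥ σ`. -/
def opH (σ : ℕ) : Op where
  S := Sh σ
  Q := fun i => i
  χ := fun i => σ ≤ i
  dec := fun i => inferInstance
  ρ := fun κ => κ
  R := fun i => i
  hS := by
    intro i κ
    have key : ((κ.filter (fun l => σ ≤ l)).map (fun l => (i ::ₘ κ).erase l)) =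
        ((κ.filter (fun l => σ ≤ l)).map (fun l => κ.erase l)).map (fun m => i ::ₘ m) := by
      rw [Multiset.map_map]
      refine Multiset.map_congr rfl fun l hl => ?_
      exact Multiset.erase_cons_tail_of_mem (Multiset.mem_filter.1 hl).1
    unfold Sh
    by_cases h : σ ≤ i
    · rw [if_pos h, Multiset.filter_cons_of_pos _ h, Multiset.map_cons, key,
        Multiset.erase_cons_head, add_comm, Multiset.singleton_add]
    · rw [if_neg h, Multiset.filter_cons_of_neg _ h, key, add_zero]
  hρ := fun _ _ => rfl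

/-- Replace a letter `Y` by `l`, in all ways. -/
def Sd (l Y : ℕ) (κ : Multiset ℕ) : Multiset (Multiset ℕ) :=
  Multiset.replicate (κ.count Y) (l ::ₘ κ.erase Y)

/-- The operator of the opening of a slot. -/
def opD (l Y : ℕ) : Op where
  S := Sd l Y
  Q := fun i => i
  χ := fun i => i = Y
  dec := fun i => inferInstance
  ρ := fun κ => l ::ₘ κ
  R := fun i => i
  hS := by
    intro i κ
    unfold Sd
    by_cases h : i = Y
    · subst h
      rw [if_pos rfl, Multiset.count_cons_self, Multiset.erase_cons_head, Multiset.map_replicate]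
      rcases Nat.eq_zero_or_pos (κ.count i) with h0 | h0
      · rw [h0]
        simp
      · rw [Multiset.cons_swap, Multiset.cons_erase (Multiset.count_pos.1 h0),
          Multiset.replicate_succ, add_comm, Multiset.singleton_add]
    · rw [if_neg h, add_zero, Multiset.count_cons_of_ne (Ne.symm h),
        Multiset.erase_cons_tail _ h, Multiset.map_replicate, Multiset.cons_swap]
  hρ := by
    intro i κ
    exact Multiset.cons_swap _ _ _

lemma msum_nonpos {s : Multiset ℝ} (h : ∀ x ∈ s, x ≤ 0) : s.sum ≤ 0 := by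
  induction s using Multiset.induction_on with
  | empty => simp
  | cons x s ih =>
    rw [Multiset.sum_cons]
    have h1 := h x (Multiset.mem_cons_self x s)
    have h2 := ih fun y hy => h y (Multiset.mem_cons_of_mem hy)
    linarith

/-! ## The chain -/

lemma chi_step (σ k : ℕ) (hk : k < σ) (a : Multiset ℕ → ℝ) (κ : Multiset ℕ) (v : ℕ →₀ ℝ) :
    Lf a κ (push (P σ (k + 1)) v) = Lf a κ (push (P σ k) v) +
      chi (opG σ k hk) v * (a (k ::ₘ κ) - a (σ ::ₘ κ)) := by
  have h : (Lf a κ).comp (push (P σ (k + 1))) = (Lf a κ).comp (push (P σ k)) +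
      (a (k ::ₘ κ) - a (σ ::ₘ κ)) • chi (opG σ k hk) := by
    apply ext_dl
    intro i
    simp only [LinearMap.comp_apply, push_dl, Lf_dl, LinearMap.add_apply, LinearMap.smul_apply,
      chi_dl, smul_eq_mul]
    by_cases h : i = k
    · subst h
      rw [P_succ_self, P_eq hk]
      have : (opG σ i hk).χ i := rfl
      rw [if_pos this]
      ring
    · have : ¬ (opG σ k hk).χ i := h
      rw [P_of_ne h, if_neg this]
      ring
  have h2 := congrArg (fun f => f v) h
  simp only [LinearMap.comp_apply, LinearMap.add_apply, LinearMap.smul_apply, smul_eq_mul] at h2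
  rw [h2]
  ring

/-- One zone. -/
lemma zone_step {Z D : ℕ} {a : Multiset ℕ → ℝ} (ha : Good Z D a) {σ k : ℕ} (hk : k < σ)
    (hσ : σ < Z) {μ : Multiset ℕ} (hμ : μ.card + 1 = D) (v : ℕ →₀ ℝ) {E : ℝ}
    (h1 : (a (k ::ₘ cl σ k μ) - a (σ ::ₘ cl σ k μ)) * E ≤
      Lf a (cl σ k μ) (push (P σ k) v) ^ 2)
    (h2 : Lf a (cl σ k μ) (push (P σ k) v) = 0 → E ≤ 0) :
    (a (k ::ₘ cl σ (k + 1) μ) - a (σ ::ₘ cl σ (k + 1) μ)) *
        (E + Bf (tot (Sg σ k) a) μ v v) ≤
      Lf a (cl σ (k + 1) μ) (push (P σ (k + 1)) v) ^ 2 ∧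
    (Lf a (cl σ (k + 1) μ) (push (P σ (k + 1)) v) = 0 → E + Bf (tot (Sg σ k) a) μ v v ≤ 0) := by
  set u := push (P σ (k + 1)) v with hu
  set y := Lf a (cl σ k μ) (push (P σ k) v) with hy
  set c := μ.count k with hc
  set x := chi (opG σ k hk) v with hx
  have hB : Bf (tot (Sg σ k) a) μ v v =
      ∑ t ∈ range c, Bf a (nu σ k t μ) u u + x * Lf a (cl σ k μ) u + x * y := by
    have := Bf_tot (opG σ k hk) a μ v v
    change Bf (tot (Sg σ k) a) μ v v = ((Sg σ k μ).map (fun m => Bf a m u u)).sum +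
      x * Lf a (cl σ k μ) u + x * y at this
    rw [this]
    congr 2
    unfold Sg
    rw [Multiset.map_map]
    rfl
  have hchi := chi_step σ k hk a (cl σ k μ) v
  rw [← hu, ← hx, ← hy] at hchi
  -- the inner induction
  have key : ∀ t, t ≤ c →
      (a (k ::ₘ kap σ k t μ) - a (σ ::ₘ kap σ k t μ)) *
        (E + x * (y + Lf a (cl σ k μ) u) + ∑ t' ∈ range t, Bf a (nu σ k t' μ) u u) ≤
          Lf a (kap σ k t μ) u ^ 2 ∧
      (Lf a (kap σ k t μ) u = 0 →
        E + x * (y + Lf a (cl σ k μ) u) + ∑ t' ∈ range t, Bf a (nu σ k t' μ) u u ≤ 0) := by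
    intro t
    induction t with
    | zero =>
      intro _
      rw [cl_eq hk, Finset.sum_range_zero, add_zero]
      set d := a (k ::ₘ cl σ k μ) - a (σ ::ₘ cl σ k μ) with hd
      set l := Lf a (cl σ k μ) u with hl
      have hd0 : 0 ≤ d := by
        have := ha.mono (κ := cl σ k μ) (by rw [card_cl, hμ]) hk.le hσ
        rw [hd]
        linarith
      have h3 : d * (E + x * (y + l)) ≤ l ^ 2 := by
        have : d * (x * (y + l)) = l ^ 2 - y ^ 2 := by
          rw [hchi]; ring
        nlinarith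
      refine ⟨h3, fun h4 => ?_⟩
      rcases hd0.eq_or_lt with h5 | h5
      · have h6 : y = 0 := by
          rw [hchi, ← h5] at h4
          linarith
        have := h2 h6
        rw [h6, h4]
        linarith
      · rw [h4] at h3 ⊢
        by_contra h6
        push Not at h6
        nlinarith [mul_pos h5 h6]
    | succ t ih =>
      intro ht
      obtain ⟨ih1, ih2⟩ := ih (by omega)
      have ht' : t < μ.count k := by omega
      rw [Finset.sum_range_succ, ← add_assoc]
      rw [← cons_nu_right ht'] at ih1 ih2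
      rw [← cons_nu_left ht']
      set ν := nu σ k t μ with hν
      have hcard : ν.card + 2 = D := by
        have := card_nu (σ := σ) ht'
        rw [← hν] at this
        omega
      have hs : ∀ w, Lf a (σ ::ₘ ν) w = 0 → Bf a ν w w ≤ 0 := fun w => ha.hyp ν σ w hcard
      have hpos : 0 < a (σ ::ₘ σ ::ₘ ν) := ha.pos _ (by simp; omega)
      have hn1 : a (σ ::ₘ σ ::ₘ ν) ≤ a (k ::ₘ σ ::ₘ ν) :=
        ha.mono (by simp; omega) hk.le hσ
      have hn2 : a (σ ::ₘ k ::ₘ ν) ≤ a (k ::ₘ k ::ₘ ν) :=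
        ha.mono (by simp; omega) hk.le hσ
      have hsw : a (σ ::ₘ k ::ₘ ν) = a (k ::ₘ σ ::ₘ ν) := by rw [Multiset.cons_swap]
      have hn2' : a (k ::ₘ σ ::ₘ ν) ≤ a (k ::ₘ k ::ₘ ν) := hsw ▸ hn2
      rw [hsw]
      refine step_num (D := a (k ::ₘ σ ::ₘ ν) - a (σ ::ₘ σ ::ₘ ν)) (by linarith) (by linarith)
        ih1 ih2 (fun h => ?_) (fun h => ?_)
      · exact edge_pos hs u h
      · have h' : a (k ::ₘ σ ::ₘ ν) = a (σ ::ₘ σ ::ₘ ν) := by linarith
        obtain ⟨h3, h4⟩ := edge_zero hs hpos hn2' u h'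
        exact ⟨by linarith, h4, fun h5 => hs u h5⟩
  have h3 := key c (le_refl _)
  rw [hc, cl_succ_eq, ← hc] at h3
  have h4 : E + Bf (tot (Sg σ k) a) μ v v = E + x * (y + Lf a (cl σ k μ) u) +
      ∑ t' ∈ range c, Bf a (nu σ k t' μ) u u := by
    rw [hB]; ring
  rw [h4]
  exact h3

/-- All zones below `σ`. -/
lemma chain {Z D : ℕ} {a : Multiset ℕ → ℝ} (ha : Good Z D a) {σ : ℕ}
    (hσ : σ < Z) {μ : Multiset ℕ} (hμ : μ.card + 1 = D) (v : ℕ →₀ ℝ) :
    ∀ k, k ≤ σ →
      (a (k ::ₘ cl σ k μ) - a (σ ::ₘ cl σ k μ)) *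
        (∑ k' ∈ range k, Bf (tot (Sg σ k') a) μ v v) ≤
          Lf a (cl σ k μ) (push (P σ k) v) ^ 2 ∧
      (Lf a (cl σ k μ) (push (P σ k) v) = 0 →
        ∑ k' ∈ range k, Bf (tot (Sg σ k') a) μ v v ≤ 0) := by
  intro k
  induction k with
  | zero =>
    intro _
    rw [Finset.sum_range_zero, mul_zero]
    exact ⟨sq_nonneg _, fun _ => le_refl _⟩
  | succ k ih =>
    intro hk
    obtain ⟨ih1, ih2⟩ := ih (by omega)
    obtain ⟨h1, h2⟩ := zone_step ha (by omega : k < σ) hσ hμ v ih1 ih2
    rw [Finset.sum_range_succ]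
    refine ⟨?_, h2⟩
    have hc : (cl σ (k + 1) μ).card + 1 = D := by rw [card_cl, hμ]
    have h3 : a ((k + 1) ::ₘ cl σ (k + 1) μ) ≤ a (k ::ₘ cl σ (k + 1) μ) :=
      ha.mono hc (Nat.le_succ k) (by omega)
    have h4 : a (σ ::ₘ cl σ (k + 1) μ) ≤ a ((k + 1) ::ₘ cl σ (k + 1) μ) :=
      ha.mono hc hk hσ
    set E := ∑ k' ∈ range k, Bf (tot (Sg σ k') a) μ v v + Bf (tot (Sg σ k) a) μ v v with hE
    rcases le_total E 0 with h5 | h5
    · refine le_trans (mul_nonpos_of_nonneg_of_nonpos (by linarith) h5) (sq_nonneg _)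
    · refine le_trans (mul_le_mul_of_nonneg_right ?_ h5) h1
      linarith

/-- The insertion operator. -/
noncomputable def J (σ : ℕ) (ε : ℝ) (a : Multiset ℕ → ℝ) : Multiset ℕ → ℝ :=
  ∑ k ∈ range σ, tot (Sg σ k) a + ε • tot (Sh σ) a

lemma J_apply (σ : ℕ) (ε : ℝ) (a : Multiset ℕ → ℝ) (κ : Multiset ℕ) :
    J σ ε a κ = ∑ k ∈ range σ, tot (Sg σ k) a κ + ε * tot (Sh σ) a κ := by
  unfold J
  simp

lemma tot_nonneg {Z D : ℕ} {a : Multiset ℕ → ℝ} (ha : Good Z D a)
    {S : Multiset ℕ → Multiset (Multiset ℕ)} {κ : Multiset ℕ}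
    (hS : ∀ m ∈ S κ, m.card = D) : 0 ≤ tot S a κ := by
  unfold tot
  apply Multiset.sum_nonneg
  intro x hx
  rw [Multiset.mem_map] at hx
  obtain ⟨m, hm, rfl⟩ := hx
  exact (ha.pos m (hS m hm)).le

lemma tot_pos {Z D : ℕ} {a : Multiset ℕ → ℝ} (ha : Good Z D a)
    {S : Multiset ℕ → Multiset (Multiset ℕ)} {κ : Multiset ℕ}
    (hS : ∀ m ∈ S κ, m.card = D) (hne : S κ ≠ 0) : 0 < tot S a κ := by
  unfold tot
  obtain ⟨m, hm⟩ := Multiset.exists_mem_of_ne_zero hne
  obtain ⟨s, hs⟩ := Multiset.exists_cons_of_mem hm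
  rw [hs, Multiset.map_cons, Multiset.sum_cons]
  have h1 : 0 ≤ (s.map a).sum := by
    apply Multiset.sum_nonneg
    intro x hx
    rw [Multiset.mem_map] at hx
    obtain ⟨m', hm', rfl⟩ := hx
    exact (ha.pos m' (hS m' (by rw [hs]; exact Multiset.mem_cons_of_mem hm'))).le
  have h2 := ha.pos m (hS m hm)
  linarith

lemma tot_mono {S : Multiset ℕ → Multiset (Multiset ℕ)} {a b : Multiset ℕ → ℝ} {κ : Multiset ℕ}
    (h : ∀ m ∈ S κ, a m ≤ b m) : tot S a κ ≤ tot S b κ := by
  unfold tot
  exact Multiset.sum_map_le_sum_map _ _ h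

/-- Telescoping within a zone. -/
lemma tele {M : Type*} [AddCommMonoid M] (σ k : ℕ) (hk : k < σ) (a : Multiset ℕ → M)
    (κ : Multiset ℕ) :
    tot (Sg σ k) (fun m => a (k ::ₘ m)) κ + a (cl σ k κ) =
      tot (Sg σ k) (fun m => a (σ ::ₘ m)) κ + a (cl σ (k + 1) κ) := by
  have h1 : tot (Sg σ k) (fun m => a (k ::ₘ m)) κ =
      ∑ t ∈ range (κ.count k), a (kap σ k (t + 1) κ) := by
    unfold tot Sg
    rw [Multiset.map_map]
    change ∑ t ∈ range (κ.count k), a (k ::ₘ nu σ k t κ) = _
    refine Finset.sum_congr rfl fun t ht => ?_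
    rw [Finset.mem_range] at ht
    rw [cons_nu_left ht]
  have h2 : tot (Sg σ k) (fun m => a (σ ::ₘ m)) κ =
      ∑ t ∈ range (κ.count k), a (kap σ k t κ) := by
    unfold tot Sg
    rw [Multiset.map_map]
    change ∑ t ∈ range (κ.count k), a (σ ::ₘ nu σ k t κ) = _
    refine Finset.sum_congr rfl fun t ht => ?_
    rw [Finset.mem_range] at ht
    rw [cons_nu_right ht]
  rw [h1, h2, ← cl_eq hk, ← cl_succ_eq, ← Finset.sum_range_succ' (fun t => a (kap σ k t κ)),
    ← Finset.sum_range_succ (fun t => a (kap σ k t κ))]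

lemma tot_cons_G {M : Type*} [AddCommMonoid M] {σ k : ℕ} (hk : k < σ) (a : Multiset ℕ → M)
    (i : ℕ) (κ : Multiset ℕ) :
    tot (Sg σ k) a (i ::ₘ κ) = tot (Sg σ k) (fun m => a (P σ (k + 1) i ::ₘ m)) κ +
      (if i = k then a (cl σ k κ) else 0) :=
  tot_cons (opG σ k hk) a i κ

lemma tot_cons_H {M : Type*} [AddCommMonoid M] (σ : ℕ) (a : Multiset ℕ → M)
    (i : ℕ) (κ : Multiset ℕ) :
    tot (Sh σ) a (i ::ₘ κ) = tot (Sh σ) (fun m => a (i ::ₘ m)) κ +
      (if σ ≤ i then a κ else 0) :=
  tot_cons (opH σ) a i κ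

lemma tot_cons_D {M : Type*} [AddCommMonoid M] (l Y : ℕ) (a : Multiset ℕ → M)
    (i : ℕ) (κ : Multiset ℕ) :
    tot (Sd l Y) a (i ::ₘ κ) = tot (Sd l Y) (fun m => a (i ::ₘ m)) κ +
      (if i = Y then a (l ::ₘ κ) else 0) :=
  tot_cons (opD l Y) a i κ

/-- One zone in the monotonicity of `J`. -/
lemma nes_zone {Z D : ℕ} {a : Multiset ℕ → ℝ} (ha : Good Z D a) {σ k i : ℕ} (hk : k < σ)
    (hi : i + 1 < Z) {κ : Multiset ℕ} (hκ : κ.card = D) :
    tot (Sg σ k) a ((i + 1) ::ₘ κ) + (if i = k then a (cl σ (i + 1) κ) else 0) ≤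
      tot (Sg σ k) a (i ::ₘ κ) + (if i + 1 = k then a (cl σ (i + 1) κ) else 0) := by
  rw [tot_cons_G hk, tot_cons_G hk]
  have hmono : ∀ j l, j ≤ l → l < Z → tot (Sg σ k) (fun m => a (l ::ₘ m)) κ ≤
      tot (Sg σ k) (fun m => a (j ::ₘ m)) κ := by
    intro j l hjl hl
    refine tot_mono fun m hm => ?_
    exact ha.mono (by rw [mem_Sg hm, hκ]) hjl hl
  rcases lt_trichotomy i k with h | h | h
  · -- i < k
    have hik : ¬ i = k := by omega
    simp only [if_neg hik]
    have e1 : P σ (k + 1) i = i := by unfold P; rw [if_neg (by omega)]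
    rw [e1]
    by_cases h2 : i + 1 = k
    · subst h2
      rw [P_succ_self]
      simp only [if_true]
      have := hmono i (i + 1) (Nat.le_succ i) hi
      linarith
    · have e2 : P σ (k + 1) (i + 1) = i + 1 := by unfold P; rw [if_neg (by omega)]
      rw [e2]
      simp only [if_neg h2]
      have := hmono i (i + 1) (Nat.le_succ i) hi
      linarith
  · -- i = k
    subst h
    have hii : ¬ i + 1 = i := by omega
    simp only [if_true, if_neg hii]
    rw [P_succ_self]
    have e2 : P σ (i + 1) (i + 1) = σ := by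
      unfold P
      by_cases h3 : i + 1 < σ
      · rw [if_pos ⟨le_refl _, h3⟩]
      · rw [if_neg (by omega)]; omega
    rw [e2]
    have := tele σ i hk a κ
    linarith
  · -- k < i
    have hik : ¬ i = k := by omega
    have hik' : ¬ i + 1 = k := by omega
    simp only [if_neg hik, if_neg hik']
    by_cases h3 : i < σ
    · have e1 : P σ (k + 1) i = σ := by unfold P; rw [if_pos (by omega)]
      have e2 : P σ (k + 1) (i + 1) = σ := by
        unfold P
        by_cases h4 : i + 1 < σ
        · rw [if_pos (by omega)]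
        · rw [if_neg (by omega)]; omega
      rw [e1, e2]
    · have e1 : P σ (k + 1) i = i := by unfold P; rw [if_neg (by omega)]
      have e2 : P σ (k + 1) (i + 1) = i + 1 := by unfold P; rw [if_neg (by omega)]
      rw [e1, e2]
      have := hmono i (i + 1) (Nat.le_succ i) hi
      linarith

/-- The insertion operator keeps the class. -/
theorem J_good {Z D : ℕ} {a : Multiset ℕ → ℝ} (ha : Good Z D a) {σ : ℕ} (hσ : σ < Z)
    {ε : ℝ} (h0 : 0 < ε) (h1 : ε ≤ 1) : Good Z (D + 1) (J σ ε a) := by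
  have cG : ∀ (k : ℕ) (κ : Multiset ℕ), κ.card = D + 1 → ∀ m ∈ Sg σ k κ, m.card = D := by
    intro k κ hκ m hm
    have := mem_Sg hm
    omega
  have cH : ∀ (κ : Multiset ℕ), κ.card = D + 1 → ∀ m ∈ Sh σ κ, m.card = D := by
    intro κ hκ m hm
    obtain ⟨l, hl, rfl⟩ := mem_Sh hm
    rw [Multiset.card_erase_of_mem hl, hκ]
    rfl
  have hpos : ∀ κ : Multiset ℕ, κ.card = D + 1 → 0 < J σ ε a κ := by
    intro κ hκ
    rw [J_apply]
    have n1 : 0 ≤ ∑ k ∈ range σ, tot (Sg σ k) a κ :=
      Finset.sum_nonneg fun k _ => tot_nonneg ha (cG k κ hκ)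
    have n2 : 0 ≤ ε * tot (Sh σ) a κ := mul_nonneg h0.le (tot_nonneg ha (cH κ hκ))
    have hne : κ ≠ 0 := by
      intro h
      rw [h] at hκ
      simp at hκ
    obtain ⟨l, hl⟩ := Multiset.exists_mem_of_ne_zero hne
    by_cases hlσ : l < σ
    · have n3 : 0 < ∑ k ∈ range σ, tot (Sg σ k) a κ := by
        apply Finset.sum_pos' (fun k _ => tot_nonneg ha (cG k κ hκ))
        refine ⟨l, Finset.mem_range.2 hlσ, tot_pos ha (cG l κ hκ) ?_⟩
        intro h
        have h3 := congrArg Multiset.card h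
        unfold Sg at h3
        rw [Multiset.card_map, Multiset.card_range, Multiset.card_zero,
          Multiset.count_eq_zero] at h3
        exact h3 hl
      linarith
    · have n3 : 0 < ε * tot (Sh σ) a κ := by
        apply mul_pos h0
        apply tot_pos ha (cH κ hκ)
        intro h
        unfold Sh at h
        rw [Multiset.map_eq_zero, Multiset.filter_eq_nil] at h
        exact h l hl (by omega)
      linarith
  refine ⟨hpos, ?_, ?_⟩
  · -- monotonicity
    intro κ i hi hκ
    have hκ' : κ.card = D := by omega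
    rw [J_apply, J_apply]
    have s1 := Finset.sum_le_sum (fun k (hk : k ∈ range σ) =>
      nes_zone ha (Finset.mem_range.1 hk) hi hκ')
    rw [Finset.sum_add_distrib, Finset.sum_add_distrib, Finset.sum_ite_eq, Finset.sum_ite_eq] at s1
    simp only [Finset.mem_range] at s1
    rw [tot_cons_H, tot_cons_H]
    have s2 : tot (Sh σ) (fun m => a ((i + 1) ::ₘ m)) κ ≤ tot (Sh σ) (fun m => a (i ::ₘ m)) κ := by
      refine tot_mono fun m hm => ?_
      obtain ⟨l, hl, rfl⟩ := mem_Sh hm
      apply ha.nes _ _ hi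
      rw [Multiset.card_erase_of_mem hl, hκ']
      have : 0 < κ.card := Multiset.card_pos_iff_exists_mem.2 ⟨l, hl⟩
      rw [hκ'] at this
      exact Nat.succ_pred_eq_of_pos this
    have s3 := mul_le_mul_of_nonneg_left s2 h0.le
    have s4 : 0 < a κ := ha.pos κ hκ'
    rw [mul_add, mul_add]
    rcases lt_trichotomy (i + 1) σ with h | h | h
    · rw [if_neg (by omega : ¬ σ ≤ i + 1), if_neg (by omega : ¬ σ ≤ i)]
      rw [if_pos (by omega), if_pos h] at s1
      linarith
    · rw [if_pos (by omega : σ ≤ i + 1), if_neg (by omega : ¬ σ ≤ i)]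
      rw [if_pos (by omega), if_neg (by omega), h, cl_self] at s1
      rw [h] at s3 ⊢
      have : ε * a κ ≤ 1 * a κ := mul_le_mul_of_nonneg_right h1 s4.le
      linarith
    · rw [if_pos (by omega : σ ≤ i + 1), if_pos (by omega : σ ≤ i)]
      rw [if_neg (by omega), if_neg (by omega)] at s1
      linarith
  · -- the quadratic forms
    intro μ i v hμ hv
    have hμ' : μ.card + 1 = D := by omega
    refine hyp_of (ℓ := Lf a μ) (i := i) ?_ ?_ ?_ hv
    · intro w hw
      have hB : Bf (J σ ε a) μ w w = ∑ k ∈ range σ, Bf (tot (Sg σ k) a) μ w w +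
          ε * Bf (tot (Sh σ) a) μ w w := by
        unfold J
        rw [Bf_add, Bf_smul, Bf_sum]
        simp
      rw [hB]
      have c1 := (chain ha hσ hμ' w σ (le_refl _)).2
      have hpush : push (P σ σ) w = w := by
        have : P σ σ = id := funext fun i => P_self σ i
        rw [this]
        unfold push
        simp
      rw [cl_self, hpush] at c1
      have c2 : Bf (tot (Sh σ) a) μ w w ≤ 0 := by
        have h3 := Bf_tot (opH σ) a μ w w
        have hid : ∀ w : ℕ →₀ ℝ, push (fun i => i) w = w := by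
          intro w
          have : (fun i : ℕ => i) = id := rfl
          rw [this]
          unfold push
          simp
        change Bf (tot (Sh σ) a) μ w w =
          ((Sh σ μ).map (fun m => Bf a m (push (fun i => i) w) (push (fun i => i) w))).sum +
          chi (opH σ) w * Lf a μ (push (fun i => i) w) +
          chi (opH σ) w * Lf a μ (push (fun i => i) w) at h3
        rw [hid, hw] at h3
        rw [h3, mul_zero, add_zero, add_zero]
        apply msum_nonpos
        intro x hx
        rw [Multiset.mem_map] at hx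
        obtain ⟨m, hm, rfl⟩ := hx
        obtain ⟨l, hl, rfl⟩ := mem_Sh hm
        refine ha.hyp _ l w ?_ ?_
        · rw [Multiset.card_erase_of_mem hl]
          have : 0 < μ.card := Multiset.card_pos_iff_exists_mem.2 ⟨l, hl⟩
          rw [Nat.pred_eq_sub_one]
          omega
        · rw [Multiset.cons_erase hl]
          exact hw
      have c3 := c1 hw
      have c4 := mul_nonpos_of_nonneg_of_nonpos h0.le c2
      linarith
    · rw [Lf_dl]
      exact (ha.pos _ (by simp; omega)).ne'
    · exact (hpos _ (by simp; omega)).le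

/-- The opening operator. -/
noncomputable def Od (l Y : ℕ) (a : Multiset ℕ → ℝ) : Multiset ℕ → ℝ := a + tot (Sd l Y) a

/-- The opening operator keeps the class. -/
theorem Od_good {Z D : ℕ} {a : Multiset ℕ → ℝ} (ha : Good Z D a) {l Y : ℕ} (hY : Z ≤ Y) :
    Good Z D (Od l Y a) := by
  have cD : ∀ (κ : Multiset ℕ), κ.card = D → ∀ m ∈ Sd l Y κ, m.card = D := by
    intro κ hκ m hm
    unfold Sd at hm
    rw [Multiset.mem_replicate] at hm
    obtain ⟨h1, rfl⟩ := hm
    rw [Multiset.card_cons]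
    have h2 : Y ∈ κ := by
      by_contra h
      exact h1 (Multiset.count_eq_zero.2 h)
    rw [Multiset.card_erase_of_mem h2, hκ]
    have : 0 < κ.card := Multiset.card_pos_iff_exists_mem.2 ⟨Y, h2⟩
    rw [hκ] at this
    exact Nat.succ_pred_eq_of_pos this
  have hpos : ∀ κ : Multiset ℕ, κ.card = D → 0 < Od l Y a κ := by
    intro κ hκ
    unfold Od
    rw [Pi.add_apply]
    have h1 := ha.pos κ hκ
    have h2 := tot_nonneg ha (cD κ hκ)
    linarith
  refine ⟨hpos, ?_, ?_⟩
  · intro κ i hi hκ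
    unfold Od
    rw [Pi.add_apply, Pi.add_apply, tot_cons_D, tot_cons_D, if_neg (by omega), if_neg (by omega),
      add_zero, add_zero]
    refine add_le_add (ha.nes κ i hi hκ) (tot_mono fun m hm => ?_)
    apply ha.nes _ _ hi
    unfold Sd at hm
    rw [Multiset.mem_replicate] at hm
    obtain ⟨h1, rfl⟩ := hm
    have h2 : Y ∈ κ := by
      by_contra h
      exact h1 (Multiset.count_eq_zero.2 h)
    rw [Multiset.card_cons, Multiset.card_erase_of_mem h2]
    have : 0 < κ.card := Multiset.card_pos_iff_exists_mem.2 ⟨Y, h2⟩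
    rw [Nat.pred_eq_sub_one]
    omega
  · intro μ i v hμ hv
    refine hyp_of (ℓ := Lf a (l ::ₘ μ)) (i := i) ?_ ?_ ?_ hv
    · intro w hw
      unfold Od
      rw [Bf_add, LinearMap.add_apply, LinearMap.add_apply]
      have c1 := ha.hyp μ l w hμ hw
      have c2 : Bf (tot (Sd l Y) a) μ w w ≤ 0 := by
        have h3 := Bf_tot (opD l Y) a μ w w
        have hid : ∀ w : ℕ →₀ ℝ, push (fun i => i) w = w := by
          intro w
          have : (fun i : ℕ => i) = id := rfl
          rw [this]
          unfold push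
          simp
        change Bf (tot (Sd l Y) a) μ w w =
          ((Sd l Y μ).map (fun m => Bf a m (push (fun i => i) w) (push (fun i => i) w))).sum +
          chi (opD l Y) w * Lf a (l ::ₘ μ) (push (fun i => i) w) +
          chi (opD l Y) w * Lf a (l ::ₘ μ) (push (fun i => i) w) at h3
        rw [hid, hw] at h3
        rw [h3, mul_zero, add_zero, add_zero]
        apply msum_nonpos
        intro x hx
        rw [Multiset.mem_map] at hx
        obtain ⟨m, hm, rfl⟩ := hx
        unfold Sd at hm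
        rw [Multiset.mem_replicate] at hm
        obtain ⟨h1, rfl⟩ := hm
        have h2 : Y ∈ μ := by
          by_contra h
          exact h1 (Multiset.count_eq_zero.2 h)
        refine ha.hyp _ Y w ?_ ?_
        · rw [Multiset.card_cons, Multiset.card_erase_of_mem h2]
          have : 0 < μ.card := Multiset.card_pos_iff_exists_mem.2 ⟨Y, h2⟩
          rw [Nat.pred_eq_sub_one]
          omega
        · rw [Multiset.cons_swap, Multiset.cons_erase h2]
          exact hw
      linarith
    · rw [Lf_dl]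
      exact (ha.pos _ (by simp; omega)).ne'
    · exact (hpos _ (by simp; omega)).le

end Pool.DU31
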