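import Mathlib

set_option autoImplicit false

/-!
# DU31/Quad: arrays on multisets, their linear and quadratic forms

An array is a function `a : Multiset ℕ → ℝ`; the numbers in a multiset are its letters. The letters
below `Z` are the zones.
-/

open Finset

namespace Pool.DU31

/-- The linear form `v ↦ ∑ v_j a (j ::ₘ κ)`. -/
noncomputable def Lf (a : Multiset ℕ → ℝ) (κ : Multiset ℕ) : (ℕ →₀ ℝ) →ₗ[ℝ] ℝ :=
  Finsupp.linearCombination ℝ (fun j => a (j ::ₘ κ))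

/-- The bilinear form `(u, v) ↦ ∑ u_i v_j a (i ::ₘ j ::ₘ ν)`. -/
noncomputable def Bf (a : Multiset ℕ → ℝ) (ν : Multiset ℕ) :
    (ℕ →₀ ℝ) →ₗ[ℝ] (ℕ →₀ ℝ) →ₗ[ℝ] ℝ :=
  Finsupp.linearCombination ℝ (fun i => Lf a (i ::ₘ ν))

/-- Unit vector. -/
noncomputable def dl (i : ℕ) : ℕ →₀ ℝ := Finsupp.single i 1

@[simp] lemma Lf_dl (a : Multiset ℕ → ℝ) (κ : Multiset ℕ) (i : ℕ) :
    Lf a κ (dl i) = a (i ::ₘ κ) := by
  simp [Lf, dl]

@[simp] lemma Bf_dl (a : Multiset ℕ → ℝ) (ν : Multiset ℕ) (i : ℕ) :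
    Bf a ν (dl i) = Lf a (i ::ₘ ν) := by
  simp [Bf, dl]

lemma Bf_symm (a : Multiset ℕ → ℝ) (ν : Multiset ℕ) (u v : ℕ →₀ ℝ) :
    Bf a ν u v = Bf a ν v u := by
  have h : Bf a ν = (Bf a ν).flip := by
    apply Finsupp.lhom_ext'
    intro i
    apply LinearMap.ext_ring
    apply Finsupp.lhom_ext'
    intro j
    apply LinearMap.ext_ring
    change Bf a ν (dl i) (dl j) = Bf a ν (dl j) (dl i)
    rw [Bf_dl, Bf_dl, Lf_dl, Lf_dl, Multiset.cons_swap]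
  conv_lhs => rw [h]
  rfl

/-- The class of arrays. -/
structure Good (Z D : ℕ) (a : Multiset ℕ → ℝ) : Prop where
  pos : ∀ κ, κ.card = D → 0 < a κ
  nes : ∀ κ k, k + 1 < Z → κ.card + 1 = D → a ((k + 1) ::ₘ κ) ≤ a (k ::ₘ κ)
  hyp : ∀ ν i v, ν.card + 2 = D → Lf a (i ::ₘ ν) v = 0 → Bf a ν v v ≤ 0

lemma Good.mono {Z D : ℕ} {a : Multiset ℕ → ℝ} (h : Good Z D a) {κ : Multiset ℕ}
    (hκ : κ.card + 1 = D) {k l : ℕ} (hkl : k ≤ l) (hl : l < Z) : a (l ::ₘ κ) ≤ a (k ::ₘ κ) := by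
  induction l, hkl using Nat.le_induction with
  | base => exact le_refl _
  | succ l hkl ih => exact (h.nes κ l hl hκ).trans (ih (by omega))

/-- Two-dimensional argument: a form that is nonpositive on some hyperplane. -/
lemma hyp_of {b : Multiset ℕ → ℝ} {μ : Multiset ℕ} {ℓ : (ℕ →₀ ℝ) →ₗ[ℝ] ℝ} {i : ℕ}
    (h : ∀ w, ℓ w = 0 → Bf b μ w w ≤ 0) (hl : ℓ (dl i) ≠ 0) (hb : 0 ≤ b (i ::ₘ i ::ₘ μ))
    {v : ℕ →₀ ℝ} (hv : Lf b (i ::ₘ μ) v = 0) : Bf b μ v v ≤ 0 := by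
  set s : ℝ := ℓ v / ℓ (dl i) with hs
  have h1 := h (v - s • dl i) (by
    rw [map_sub, map_smul, smul_eq_mul, hs, div_mul_cancel₀ _ hl, sub_self])
  have h2 : Bf b μ (v - s • dl i) (v - s • dl i) =
      Bf b μ v v - 2 * s * Lf b (i ::ₘ μ) v + s ^ 2 * b (i ::ₘ i ::ₘ μ) := by
    simp only [map_sub, map_smul, LinearMap.sub_apply, LinearMap.smul_apply, smul_eq_mul]
    rw [Bf_symm b μ v (dl i), Bf_dl, Lf_dl]
    ring
  rw [h2, hv] at h1
  nlinarith [mul_nonneg (sq_nonneg s) hb]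

/-- Numbers: the inequality used when an old slot is passed, nondegenerate case. -/
lemma edge_pos {a : Multiset ℕ → ℝ} {ν : Multiset ℕ} {s k : ℕ}
    (hyp : ∀ v, Lf a (s ::ₘ ν) v = 0 → Bf a ν v v ≤ 0) (u : ℕ →₀ ℝ)
    (hD : a (k ::ₘ s ::ₘ ν) - a (s ::ₘ s ::ₘ ν) ≠ 0) :
    (a (k ::ₘ s ::ₘ ν) - a (s ::ₘ s ::ₘ ν)) ^ 2 * Bf a ν u u ≤
      2 * (a (k ::ₘ s ::ₘ ν) - a (s ::ₘ s ::ₘ ν)) * Lf a (k ::ₘ ν) u * Lf a (s ::ₘ ν) u -
      (a (k ::ₘ s ::ₘ ν) - a (s ::ₘ s ::ₘ ν)) * Lf a (s ::ₘ ν) u ^ 2 -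
      (a (k ::ₘ k ::ₘ ν) - a (k ::ₘ s ::ₘ ν)) * Lf a (s ::ₘ ν) u ^ 2 := by
  set D := a (k ::ₘ s ::ₘ ν) - a (s ::ₘ s ::ₘ ν) with hDdef
  set β := Lf a (s ::ₘ ν) u with hβ
  set α := Lf a (k ::ₘ ν) u with hα
  have h1 := hyp (u - (β / D) • (dl k - dl s)) (by
    rw [map_sub, map_smul, map_sub, Lf_dl, Lf_dl, smul_eq_mul, ← hβ, ← hDdef,
      div_mul_cancel₀ _ hD, sub_self])
  have h2 : Bf a ν (u - (β / D) • (dl k - dl s)) (u - (β / D) • (dl k - dl s)) =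
      Bf a ν u u - 2 * (β / D) * (α - β) + (β / D) ^ 2 *
        (a (k ::ₘ k ::ₘ ν) - 2 * a (k ::ₘ s ::ₘ ν) + a (s ::ₘ s ::ₘ ν)) := by
    simp only [map_sub, map_smul, LinearMap.sub_apply, LinearMap.smul_apply, smul_eq_mul]
    rw [Bf_symm a ν u (dl k), Bf_symm a ν u (dl s)]
    simp only [Bf_dl, Lf_dl]
    rw [Multiset.cons_swap s k ν, ← hα, ← hβ]
    ring
  rw [h2] at h1
  have h3 : D ^ 2 * (Bf a ν u u - 2 * (β / D) * (α - β) + (β / D) ^ 2 *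
        (a (k ::ₘ k ::ₘ ν) - 2 * a (k ::ₘ s ::ₘ ν) + a (s ::ₘ s ::ₘ ν))) ≤ 0 :=
    mul_nonpos_of_nonneg_of_nonpos (sq_nonneg D) h1
  have h4 : D ^ 2 * (Bf a ν u u - 2 * (β / D) * (α - β) + (β / D) ^ 2 *
        (a (k ::ₘ k ::ₘ ν) - 2 * a (k ::ₘ s ::ₘ ν) + a (s ::ₘ s ::ₘ ν))) =
      D ^ 2 * Bf a ν u u - 2 * D * β * (α - β) + β ^ 2 *
        (a (k ::ₘ k ::ₘ ν) - 2 * a (k ::ₘ s ::ₘ ν) + a (s ::ₘ s ::ₘ ν)) := by
    field_simp
  rw [h4] at h3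
  have h5 : a (k ::ₘ k ::ₘ ν) - 2 * a (k ::ₘ s ::ₘ ν) + a (s ::ₘ s ::ₘ ν) =
      (a (k ::ₘ k ::ₘ ν) - a (k ::ₘ s ::ₘ ν)) - D := by
    rw [hDdef]; ring
  rw [h5] at h3
  nlinarith [h3]

/-- A quadratic trinomial without constant term that is never positive. -/
lemma lin_zero {x y : ℝ} (h : ∀ r : ℝ, 2 * r * x + r ^ 2 * y ≤ 0) : x = 0 := by
  by_contra hx
  have h1 := h (x / (y ^ 2 + 1))
  have h2 : (0 : ℝ) < y ^ 2 + 1 := by positivity
  have h3 : 2 * (x / (y ^ 2 + 1)) * x + (x / (y ^ 2 + 1)) ^ 2 * y =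
      x ^ 2 * (2 * y ^ 2 + 2 + y) / (y ^ 2 + 1) ^ 2 := by
    field_simp
  rw [h3] at h1
  have h4 : 0 < x ^ 2 * (2 * y ^ 2 + 2 + y) / (y ^ 2 + 1) ^ 2 := by
    have h5 : 0 < x ^ 2 := by positivity
    have h6 : 0 < 2 * y ^ 2 + 2 + y := by nlinarith [sq_nonneg (y + 1)]
    positivity
  linarith

/-- Numbers: the degenerate case. -/
lemma edge_zero {a : Multiset ℕ → ℝ} {ν : Multiset ℕ} {s k : ℕ}
    (hyp : ∀ v, Lf a (s ::ₘ ν) v = 0 → Bf a ν v v ≤ 0) (hpos : 0 < a (s ::ₘ s ::ₘ ν))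
    (hnes : a (k ::ₘ s ::ₘ ν) ≤ a (k ::ₘ k ::ₘ ν)) (u : ℕ →₀ ℝ)
    (hD : a (k ::ₘ s ::ₘ ν) = a (s ::ₘ s ::ₘ ν)) :
    a (k ::ₘ k ::ₘ ν) = a (k ::ₘ s ::ₘ ν) ∧ Lf a (k ::ₘ ν) u = Lf a (s ::ₘ ν) u := by
  have h0 : Bf a ν (dl k - dl s) (dl k - dl s) =
      a (k ::ₘ k ::ₘ ν) - 2 * a (k ::ₘ s ::ₘ ν) + a (s ::ₘ s ::ₘ ν) := by
    simp only [map_sub, LinearMap.sub_apply, Bf_dl, Lf_dl]
    rw [Multiset.cons_swap s k ν]
    ring
  have h1 := hyp (dl k - dl s) (by rw [map_sub, Lf_dl, Lf_dl, hD, sub_self])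
  rw [h0] at h1
  have h2 : a (k ::ₘ k ::ₘ ν) = a (k ::ₘ s ::ₘ ν) := by
    rw [← hD] at h1
    linarith
  refine ⟨h2, ?_⟩
  set c0 := a (s ::ₘ s ::ₘ ν) with hc0
  set β := Lf a (s ::ₘ ν) u with hβ
  set w : ℕ →₀ ℝ := u - (β / c0) • dl s with hw
  have hw0 : Lf a (s ::ₘ ν) w = 0 := by
    rw [hw, map_sub, map_smul, Lf_dl, smul_eq_mul, ← hβ, ← hc0, div_mul_cancel₀ _ hpos.ne',
      sub_self]
  have hfw : Bf a ν (dl k - dl s) w = Lf a (k ::ₘ ν) u - β := by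
    rw [hw]
    simp only [map_sub, map_smul, LinearMap.sub_apply, Bf_dl, Lf_dl, smul_eq_mul]
    rw [← hβ, ← hc0, Multiset.cons_swap s k ν, hD]
    ring
  have h3 : Lf a (k ::ₘ ν) u - β = 0 := by
    apply lin_zero (y := Bf a ν w w)
    intro r
    have h4 := hyp ((dl k - dl s) + r • w) (by
      rw [map_add, map_smul, hw0, map_sub, Lf_dl, Lf_dl, hD, ← hc0]
      simp)
    have h5 : ∀ f : ℕ →₀ ℝ, Bf a ν (f + r • w) (f + r • w) =
        Bf a ν f f + 2 * r * Bf a ν f w + r ^ 2 * Bf a ν w w := by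
      intro f
      simp only [map_add, map_smul, LinearMap.add_apply, LinearMap.smul_apply, smul_eq_mul]
      rw [Bf_symm a ν w f]
      ring
    rw [h5, h0, hfw, h2, hD] at h4
    linarith
  linarith

/-- Numbers: passing an old slot. -/
lemma step_num {D D' X q α β : ℝ} (hD : 0 ≤ D) (hD' : 0 ≤ D')
    (h1 : D * X ≤ β ^ 2) (h2 : β = 0 → X ≤ 0)
    (hp : D ≠ 0 → D ^ 2 * q ≤ 2 * D * α * β - D * β ^ 2 - D' * β ^ 2)
    (hz : D = 0 → D' = 0 ∧ α = β ∧ (β = 0 → q ≤ 0)) :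
    D' * (X + q) ≤ α ^ 2 ∧ (α = 0 → X + q ≤ 0) := by
  rcases hD.eq_or_lt with hD0 | hD0
  · obtain ⟨h3, h4, h5⟩ := hz hD0.symm
    refine ⟨by rw [h3]; nlinarith [sq_nonneg α], fun h => ?_⟩
    have h6 : β = 0 := by rw [← h4, h]
    linarith [h2 h6, h5 h6]
  · have h3 := hp hD0.ne'
    have h4 : D ^ 2 * (X + q) ≤ 2 * D * α * β - D' * β ^ 2 := by
      have h5 : D * (D * X) ≤ D * β ^ 2 := mul_le_mul_of_nonneg_left h1 hD
      nlinarith
    have hD2 : 0 < D ^ 2 := by positivity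
    constructor
    · have h5 : D ^ 2 * (D' * (X + q)) ≤ D ^ 2 * α ^ 2 := by
        have h6 : D' * (D ^ 2 * (X + q)) ≤ D' * (2 * D * α * β - D' * β ^ 2) :=
          mul_le_mul_of_nonneg_left h4 hD'
        nlinarith [sq_nonneg (D * α - D' * β)]
      exact le_of_mul_le_mul_left h5 hD2
    · intro h
      rw [h] at h4
      have h5 : D ^ 2 * (X + q) ≤ 0 := by nlinarith [mul_nonneg hD' (sq_nonneg β)]
      by_contra h6
      push Not at h6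
      nlinarith [mul_pos hD2 h6]

/-! ## Derivation-like operators -/

/-- An operator `a ↦ (κ ↦ ∑_{m ∈ S κ} a m)` with a Leibniz rule. -/
structure Op where
  S : Multiset ℕ → Multiset (Multiset ℕ)
  Q : ℕ → ℕ
  χ : ℕ → Prop
  dec : DecidablePred χ
  ρ : Multiset ℕ → Multiset ℕ
  R : ℕ → ℕ
  hS : ∀ i κ, S (i ::ₘ κ) = (S κ).map (fun m => Q i ::ₘ m) +
    (if χ i then {ρ κ} else 0)
  hρ : ∀ i κ, ρ (i ::ₘ κ) = R i ::ₘ ρ κ

/-- The value of the operator. -/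
def tot {M : Type*} [AddCommMonoid M] (S : Multiset ℕ → Multiset (Multiset ℕ))
    (a : Multiset ℕ → M) (κ : Multiset ℕ) : M :=
  ((S κ).map a).sum

attribute [instance] Op.dec

/-- The linear form of the indicator. -/
noncomputable def chi (o : Op) : (ℕ →₀ ℝ) →ₗ[ℝ] ℝ :=
  Finsupp.linearCombination ℝ (fun j => if o.χ j then (1 : ℝ) else 0)

@[simp] lemma chi_dl (o : Op) (i : ℕ) : chi o (dl i) = if o.χ i then (1 : ℝ) else 0 := by
  simp [chi, dl]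

/-- Push a vector forward. -/
noncomputable def push (Q : ℕ → ℕ) : (ℕ →₀ ℝ) →ₗ[ℝ] (ℕ →₀ ℝ) := Finsupp.lmapDomain ℝ ℝ Q

@[simp] lemma push_dl (Q : ℕ → ℕ) (i : ℕ) : push Q (dl i) = dl (Q i) := by
  simp [push, dl]

lemma tot_cons {M : Type*} [AddCommMonoid M] (o : Op) (a : Multiset ℕ → M) (i : ℕ)
    (κ : Multiset ℕ) :
    tot o.S a (i ::ₘ κ) = tot o.S (fun m => a (o.Q i ::ₘ m)) κ +
      (if o.χ i then a (o.ρ κ) else 0) := by
  unfold tot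
  rw [o.hS, Multiset.map_add, Multiset.sum_add, Multiset.map_map]
  congr 1
  split_ifs <;> simp

/-- Two linear maps on the finitely supported functions agree if they agree on unit vectors. -/
lemma ext_dl {M : Type*} [AddCommMonoid M] [Module ℝ M] {f g : (ℕ →₀ ℝ) →ₗ[ℝ] M}
    (h : ∀ i, f (dl i) = g (dl i)) : f = g := by
  apply Finsupp.lhom_ext'
  intro i
  apply LinearMap.ext_ring
  exact h i

lemma sum_apply_map {ι M : Type*} [AddCommMonoid M] (s : Multiset ι)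
    (f : ι → M) : (s.map f).sum = (s.map (fun i => f i)).sum := rfl

/-- The bilinear form of the new array. -/
lemma Bf_tot (o : Op) (a : Multiset ℕ → ℝ) (μ : Multiset ℕ) (u v : ℕ →₀ ℝ) :
    Bf (tot o.S a) μ u v =
      ((o.S μ).map (fun m => Bf a m (push o.Q u) (push o.Q v))).sum +
      chi o v * Lf a (o.ρ μ) (push o.Q u) + chi o u * Lf a (o.ρ μ) (push o.R v) := by
  -- prove it for unit vectors and extend bilinearly
  have h1 : ∀ i j, Bf (tot o.S a) μ (dl i) (dl j) =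
      ((o.S μ).map (fun m => Bf a m (push o.Q (dl i)) (push o.Q (dl j)))).sum +
      chi o (dl j) * Lf a (o.ρ μ) (push o.Q (dl i)) +
      chi o (dl i) * Lf a (o.ρ μ) (push o.R (dl j)) := by
    intro i j
    simp only [push_dl, Bf_dl, Lf_dl, chi_dl]
    rw [Multiset.cons_swap, tot_cons, tot_cons, o.hρ]
    unfold tot
    simp only [ite_mul, one_mul, zero_mul]
    congr 2
    congr 1
    refine Multiset.map_congr rfl fun m _ => ?_
    rw [Multiset.cons_swap]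
  have h2 : ∀ i, ∀ v : ℕ →₀ ℝ, Bf (tot o.S a) μ (dl i) v =
      ((o.S μ).map (fun m => Bf a m (push o.Q (dl i)) (push o.Q v))).sum +
      chi o v * Lf a (o.ρ μ) (push o.Q (dl i)) +
      chi o (dl i) * Lf a (o.ρ μ) (push o.R v) := by
    intro i v
    induction v using Finsupp.induction_linear with
    | zero => simp
    | add f g hf hg =>
      rw [map_add, hf, hg]
      simp only [map_add, Multiset.sum_map_add]
      ring
    | single j c =>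
      have : (Finsupp.single j c : ℕ →₀ ℝ) = c • dl j := by simp [dl]
      rw [this, map_smul, h1]
      simp only [map_smul, smul_eq_mul, Multiset.sum_map_mul_left]
      ring
  induction u using Finsupp.induction_linear with
  | zero => simp
  | add f g hf hg =>
    rw [map_add, LinearMap.add_apply, hf, hg]
    simp only [map_add, LinearMap.add_apply, Multiset.sum_map_add]
    ring
  | single j c =>
    have : (Finsupp.single j c : ℕ →₀ ℝ) = c • dl j := by simp [dl]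
    rw [this, map_smul, LinearMap.smul_apply, h2]
    simp only [map_smul, LinearMap.smul_apply, smul_eq_mul, Multiset.sum_map_mul_left]
    ring

end Pool.DU31
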