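import Pool.Agent.DU31.Cm

set_option autoImplicit false

/-!
# DU31/Words: from words to the counting polynomials
-/

open Polynomial

namespace Pool.DU31

/-! ## Sums over positions -/

/-- Sum over the positions of a list. -/
def pos {β M : Type*} [AddCommMonoid M] : List β → (List β → β → List β → M) → M
  | [], _ => 0
  | b :: l, h => h [] b l + pos l (fun pre x post => h (b :: pre) x post)

lemma pos_congr {β M : Type*} [AddCommMonoid M] : ∀ (l : List β)
    (h h' : List β → β → List β → M),
    (∀ pre x post, l = pre ++ x :: post → h pre x post = h' pre x post) → pos l h = pos l h' := by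
  intro l
  induction l with
  | nil => intro h h' _; rfl
  | cons b l ih =>
    intro h h' H
    unfold pos
    rw [H [] b l rfl]
    congr 1
    refine ih _ _ fun pre x post e => H (b :: pre) x post ?_
    rw [e]
    rfl

lemma pos_add {β M : Type*} [AddCommMonoid M] : ∀ (l : List β)
    (h h' : List β → β → List β → M),
    pos l (fun pre x post => h pre x post + h' pre x post) = pos l h + pos l h' := by
  intro l
  induction l with
  | nil => intro h h'; simp [pos]
  | cons b l ih =>
    intro h h'
    unfold pos
    rw [ih]
    exact add_add_add_comm _ _ _ _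

lemma pos_mul {β : Type*} (c : ℕ[X]) : ∀ (l : List β)
    (h : List β → β → List β → ℕ[X]),
    pos l (fun pre x post => c * h pre x post) = c * pos l h := by
  intro l
  induction l with
  | nil => intro h; simp [pos]
  | cons b l ih =>
    intro h
    unfold pos
    rw [ih]
    ring

lemma pos_zero {β M : Type*} [AddCommMonoid M] (l : List β) :
    pos l (fun _ _ _ => (0 : M)) = 0 := by
  induction l with
  | nil => rfl
  | cons b l ih =>
    unfold pos
    rw [ih, add_zero]

/-! ## Sums over sublists -/

/-- Sum over the sublists, with a factor `X` for the omitted entries marked `true`. -/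
noncomputable def Sub : List (Bool × ℕ) → (List ℕ → ℕ[X]) → ℕ[X]
  | [], f => f []
  | g :: G, f => (if g.1 = true then X else 1) * Sub G f + Sub G (fun O => f (g.2 :: O))

lemma Sub_congr : ∀ (G : List (Bool × ℕ)) (f f' : List ℕ → ℕ[X]),
    (∀ O : List ℕ, (∀ z ∈ O, z ∈ G.map Prod.snd) → f O = f' O) → Sub G f = Sub G f' := by
  intro G
  induction G with
  | nil =>
    intro f f' h
    unfold Sub
    exact h [] (by simp)
  | cons g G ih =>
    intro f f' h
    unfold Sub
    rw [ih f f' (fun O hO => h O fun z hz => by
        rw [List.map_cons]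
        exact List.mem_cons_of_mem _ (hO z hz)),
      ih (fun O => f (g.2 :: O)) (fun O => f' (g.2 :: O)) (fun O hO => h _ fun z hz => by
        rw [List.map_cons]
        rcases List.mem_cons.1 hz with rfl | hz
        · exact List.mem_cons_self
        · exact List.mem_cons_of_mem _ (hO z hz))]

lemma Sub_add : ∀ (G : List (Bool × ℕ)) (f f' : List ℕ → ℕ[X]),
    Sub G (fun O => f O + f' O) = Sub G f + Sub G f' := by
  intro G
  induction G with
  | nil => intro f f'; rfl
  | cons g G ih =>
    intro f f'
    unfold Sub
    rw [ih, ih]
    ring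

lemma Sub_mul (c : ℕ[X]) : ∀ (G : List (Bool × ℕ)) (f : List ℕ → ℕ[X]),
    Sub G (fun O => c * f O) = c * Sub G f := by
  intro G
  induction G with
  | nil => intro f; rfl
  | cons g G ih =>
    intro f
    unfold Sub
    rw [ih, ih]
    ring

lemma Sub_zero (G : List (Bool × ℕ)) : Sub G (fun _ => 0) = 0 := by
  have := Sub_mul 0 G (fun _ => 0)
  simp only [zero_mul] at this
  exact this

lemma Sub_ite (G : List (Bool × ℕ)) (p : Prop) [Decidable p] (f : List ℕ → ℕ[X]) :
    Sub G (fun O => if p then f O else 0) = if p then Sub G f else 0 := by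
  by_cases h : p
  · simp only [if_pos h]
  · simp only [if_neg h]
    exact Sub_zero G

lemma Sub_append : ∀ (G G' : List (Bool × ℕ)) (f : List ℕ → ℕ[X]),
    Sub (G ++ G') f = Sub G (fun O => Sub G' (fun O' => f (O ++ O'))) := by
  intro G
  induction G with
  | nil => intro G' f; rfl
  | cons g G ih =>
    intro G' f
    rw [List.cons_append]
    unfold Sub
    rw [ih, ih]
    rfl

lemma Sub_map (φ : ℕ → ℕ) : ∀ (G : List (Bool × ℕ)) (f : List ℕ → ℕ[X]),
    Sub (G.map (fun g => (g.1, φ g.2))) f = Sub G (fun O => f (O.map φ)) := by
  intro G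
  induction G with
  | nil => intro f; rfl
  | cons g G ih =>
    intro f
    rw [List.map_cons]
    unfold Sub
    rw [ih, ih]
    rfl

lemma Sub_pos : ∀ (G : List (Bool × ℕ)) (h : List ℕ → ℕ → List ℕ → ℕ[X]),
    Sub G (fun O => pos O h) =
      pos G (fun pre g post => Sub pre (fun O => Sub post (fun O' => h O g.2 O'))) := by
  intro G
  induction G with
  | nil => intro h; rfl
  | cons g G ih =>
    intro h
    have e1 : Sub (g :: G) (fun O => pos O h) = (if g.1 = true then X else 1) *
        Sub G (fun O => pos O h) + Sub G (fun O => pos (g.2 :: O) h) := rfl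
    have e2 : ∀ O : List ℕ, pos (g.2 :: O) h =
        h [] g.2 O + pos O (fun pre x post => h (g.2 :: pre) x post) := fun _ => rfl
    rw [e1]
    simp only [e2]
    rw [Sub_add, ih, ih]
    have e3 : pos (g :: G) (fun pre g post => Sub pre (fun O => Sub post (fun O' => h O g.2 O'))) =
        Sub G (fun O' => h [] g.2 O') + pos G (fun pre x post =>
          (if g.1 = true then X else 1) * Sub pre (fun O => Sub post (fun O' => h O x.2 O')) +
            Sub pre (fun O => Sub post (fun O' => h (g.2 :: O) x.2 O'))) := rfl
    rw [e3, pos_add, pos_mul]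
    ring

lemma Sub_nil (G : List (Bool × ℕ)) :
    Sub G (fun O => if O = [] then 1 else 0) = X ^ (G.countP (fun g => g.1)) := by
  induction G with
  | nil => simp [Sub]
  | cons g G ih =>
    unfold Sub
    rw [ih, List.countP_cons]
    simp only [List.cons_ne_nil, if_false]
    rw [Sub_zero, add_zero, pow_add, mul_comm]
    congr 1
    by_cases h : g.1 = true
    · simp [h]
    · simp [h]

/-! ## The list version of the counting polynomials -/

/-- The list version of `cm`. -/
noncomputable def cL : List ℕ → List ℕ → ℕ[X]
  | [] => fun O => if O = [0] then 1 else 0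
  | p :: ps => fun O => pos O (fun pre z post => if z ≤ p then
      X * (cL ps (pre ++ post.map (max (p + 1))) +
        cL ps (pre ++ (p + 1) :: post.map (max (p + 1)))) +
      (cL ps (pre ++ z :: post.map (max (p + 1))) +
        cL ps (pre ++ z :: (p + 1) :: post.map (max (p + 1)))) else 0)

lemma cL_nil (O : List ℕ) : cL [] O = if O = [0] then 1 else 0 := rfl

lemma cL_cons (p : ℕ) (ps : List ℕ) (O : List ℕ) :
    cL (p :: ps) O = pos O (fun pre z post => if z ≤ p then
      X * (cL ps (pre ++ post.map (max (p + 1))) +
        cL ps (pre ++ (p + 1) :: post.map (max (p + 1)))) +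
      (cL ps (pre ++ z :: post.map (max (p + 1))) +
        cL ps (pre ++ z :: (p + 1) :: post.map (max (p + 1)))) else 0) := rfl

/-- From positions of a sorted list to the zones of a multiset. -/
lemma bridge {M : Type*} [AddCommMonoid M] (σ : ℕ) : ∀ (O : List ℕ),
    O.Pairwise (· ≤ ·) → ∀ (f : ℕ → Multiset ℕ → M),
    pos O (fun pre z post => if z < σ then
      f z ((pre ++ post.map (max σ) : List ℕ) : Multiset ℕ) else 0) =
      ∑ k ∈ Finset.range σ, tot (Sg σ k) (f k) (O : Multiset ℕ) := by
  intro O
  induction O with
  | nil =>
    intro _ f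
    unfold pos
    symm
    refine Finset.sum_eq_zero fun k _ => ?_
    unfold tot Sg
    simp
  | cons h O ih =>
    intro hO f
    rw [List.pairwise_cons] at hO
    obtain ⟨h1, h2⟩ := hO
    have e1 : pos (h :: O) (fun pre z post => if z < σ then
        f z ((pre ++ post.map (max σ) : List ℕ) : Multiset ℕ) else 0) =
        (if h < σ then f h ((O.map (max σ) : List ℕ) : Multiset ℕ) else 0) +
        pos O (fun pre z post => if z < σ then
          f z (h ::ₘ ((pre ++ post.map (max σ) : List ℕ) : Multiset ℕ)) else 0) := rfl
    rw [e1, ih h2 (fun k m => f k (h ::ₘ m)), ← Multiset.cons_coe]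
    have e2 : ∀ k ∈ Finset.range σ, tot (Sg σ k) (f k) (h ::ₘ (O : Multiset ℕ)) =
        tot (Sg σ k) (fun m => f k (h ::ₘ m)) (O : Multiset ℕ) +
          (if h = k then f k (cl σ k (O : Multiset ℕ)) else 0) := by
      intro k hk
      rw [Finset.mem_range] at hk
      rw [tot_cons_G hk]
      congr 1
      by_cases h3 : k < h
      · have h4 : (O : Multiset ℕ).count k = 0 := by
          rw [Multiset.count_eq_zero]
          intro h5
          have := h1 k (by simpa using h5)
          omega
        unfold tot Sg
        rw [h4]
        simp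
      · have : P σ (k + 1) h = h := by unfold P; rw [if_neg (by omega)]
        rw [this]
    rw [Finset.sum_congr rfl e2, Finset.sum_add_distrib, Finset.sum_ite_eq, add_comm]
    congr 1
    simp only [Finset.mem_range]
    by_cases h3 : h < σ
    · rw [if_pos h3, if_pos h3]
      congr 1
      unfold cl
      rw [Multiset.map_coe]
      congr 1
      refine List.map_congr_left fun i hi => ?_
      have := h1 i hi
      unfold P
      split_ifs with h4
      · exact max_eq_left (by omega)
      · exact max_eq_right (by omega)
    · rw [if_neg h3, if_neg h3]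

theorem cL_eq : ∀ (ps O : List ℕ), O.Pairwise (· ≤ ·) → cL ps O = cm ps (O : Multiset ℕ) := by
  intro ps
  induction ps with
  | nil =>
    intro O _
    rw [cL_nil, cm_nil]
    have : (O = [0]) ↔ ((O : Multiset ℕ) = {0}) := by
      rw [← Multiset.coe_singleton, Multiset.coe_eq_coe, List.perm_singleton]
    simp only [this]
  | cons p ps ih =>
    intro O hO
    rw [cL_cons, cm_cons_def]
    rw [← bridge (p + 1) O hO (fun k m => X * (cm ps m + cm ps ((p + 1) ::ₘ m)) +
        (cm ps (k ::ₘ m) + cm ps (k ::ₘ (p + 1) ::ₘ m)))]
    apply pos_congr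
    intro pre z post e
    by_cases hz : z ≤ p
    · rw [if_pos hz, if_pos (by omega)]
      rw [e, List.pairwise_append, List.pairwise_cons] at hO
      obtain ⟨o1, ⟨o2, o3⟩, o4⟩ := hO
      have p1 : (post.map (max (p + 1))).Pairwise (· ≤ ·) := by
        rw [List.pairwise_map]
        exact o3.imp (fun h => max_le_max_left _ h)
      have p2 : ∀ i ∈ post.map (max (p + 1)), p + 1 ≤ i := by
        intro i hi
        rw [List.mem_map] at hi
        obtain ⟨j, _, rfl⟩ := hi
        exact le_max_left _ _
      have p3 : ∀ i ∈ pre, i ≤ z := fun i hi => o4 i hi z List.mem_cons_self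
      rw [ih, ih, ih, ih]
      · have q1 : ((pre ++ (p + 1) :: post.map (max (p + 1)) : List ℕ) : Multiset ℕ) =
            (p + 1) ::ₘ ((pre ++ post.map (max (p + 1)) : List ℕ) : Multiset ℕ) := by
          rw [Multiset.cons_coe, Multiset.coe_eq_coe]
          exact List.perm_middle
        have q2 : ((pre ++ z :: post.map (max (p + 1)) : List ℕ) : Multiset ℕ) =
            z ::ₘ ((pre ++ post.map (max (p + 1)) : List ℕ) : Multiset ℕ) := by
          rw [Multiset.cons_coe, Multiset.coe_eq_coe]
          exact List.perm_middle
        have q3 : ((pre ++ z :: (p + 1) :: post.map (max (p + 1)) : List ℕ) : Multiset ℕ) =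
            z ::ₘ (p + 1) ::ₘ ((pre ++ post.map (max (p + 1)) : List ℕ) : Multiset ℕ) := by
          rw [← q1, Multiset.cons_coe, Multiset.coe_eq_coe]
          exact List.perm_middle
        rw [q1, q2, q3]
      · rw [List.pairwise_append, List.pairwise_cons, List.pairwise_cons]
        refine ⟨o1, ⟨?_, p2, p1⟩, ?_⟩
        · intro i hi
          rcases List.mem_cons.1 hi with rfl | hi
          · omega
          · have := p2 i hi; omega
        · intro i hi j hj
          have := p3 i hi
          rcases List.mem_cons.1 hj with rfl | hj
          · exact this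
          · rcases List.mem_cons.1 hj with rfl | hj
            · omega
            · have := p2 j hj; omega
      · rw [List.pairwise_append, List.pairwise_cons]
        refine ⟨o1, ⟨?_, p1⟩, ?_⟩
        · intro i hi
          have := p2 i hi; omega
        · intro i hi j hj
          have := p3 i hi
          rcases List.mem_cons.1 hj with rfl | hj
          · exact this
          · have := p2 j hj; omega
      · rw [List.pairwise_append, List.pairwise_cons]
        refine ⟨o1, ⟨p2, p1⟩, ?_⟩
        intro i hi j hj
        have := p3 i hi
        rcases List.mem_cons.1 hj with rfl | hj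
        · omega
        · have := p2 j hj; omega
      · rw [List.pairwise_append]
        refine ⟨o1, p1, ?_⟩
        intro i hi j hj
        have := p3 i hi
        have := p2 j hj
        omega
    · rw [if_neg hz, if_neg (by omega)]

/-! ## Gap lists -/

/-- Total weight of the completions of a gap list. -/
noncomputable def SG : List ℕ → List (Bool × ℕ) → ℕ[X]
  | [] => fun G => X ^ (G.tail.countP (fun g => g.1))
  | p :: ps => fun G => pos G (fun pre g post => if g.2 ≤ p then
      SG ps (pre ++ (true, g.2) :: (false, p + 1) ::
        post.map (fun g => (g.1, max (p + 1) g.2))) else 0)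

lemma SG_nil (G : List (Bool × ℕ)) : SG [] G = X ^ (G.tail.countP (fun g => g.1)) := rfl

lemma SG_cons (p : ℕ) (ps : List ℕ) (G : List (Bool × ℕ)) :
    SG (p :: ps) G = pos G (fun pre g post => if g.2 ≤ p then
      SG ps (pre ++ (true, g.2) :: (false, p + 1) ::
        post.map (fun g => (g.1, max (p + 1) g.2))) else 0) := rfl

/-- The first gap is the only one in zone `0`. -/
def Vd (G : List (Bool × ℕ)) : Prop := ∃ t G', G = (t, 0) :: G' ∧ ∀ g ∈ G', 1 ≤ g.2

theorem SG_eq : ∀ (ps : List ℕ) (G : List (Bool × ℕ)), Vd G → SG ps G = Sub G (cL ps) := by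
  intro ps
  induction ps with
  | nil =>
    rintro G ⟨t, G', rfl, hG⟩
    rw [SG_nil, List.tail_cons]
    have e1 : Sub ((t, 0) :: G') (cL []) = (if (t, 0).1 = true then X else 1) *
        Sub G' (cL []) + Sub G' (fun O => cL [] (0 :: O)) := rfl
    have e2 : Sub G' (cL []) = 0 := by
      rw [← Sub_zero G']
      apply Sub_congr
      intro O hO
      rw [cL_nil, if_neg]
      rintro rfl
      have := hO 0 (by simp)
      rw [List.mem_map] at this
      obtain ⟨g, hg, hg'⟩ := this
      have := hG g hg
      omega
    have e3 : Sub G' (fun O => cL [] (0 :: O)) = Sub G' (fun O => if O = [] then 1 else 0) := by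
      apply Sub_congr
      intro O _
      rw [cL_nil]
      simp
    rw [e1, e2, e3, Sub_nil, mul_zero, zero_add]
  | cons p ps ih =>
    intro G hG
    have hcL : cL (p :: ps) = fun O => pos O (fun pre z post => if z ≤ p then
      X * (cL ps (pre ++ post.map (max (p + 1))) +
        cL ps (pre ++ (p + 1) :: post.map (max (p + 1)))) +
      (cL ps (pre ++ z :: post.map (max (p + 1))) +
        cL ps (pre ++ z :: (p + 1) :: post.map (max (p + 1)))) else 0) := rfl
    rw [SG_cons, hcL, Sub_pos]
    apply pos_congr
    intro pre g post e
    simp only [Sub_ite]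
    by_cases hg : g.2 ≤ p
    · rw [if_pos hg, if_pos hg, ih]
      · rw [Sub_append]
        have e1 : ∀ O : List ℕ, Sub ((true, g.2) :: (false, p + 1) ::
            post.map (fun g => (g.1, max (p + 1) g.2))) (fun O' => cL ps (O ++ O')) =
            X * (Sub post (fun O' => cL ps (O ++ O'.map (max (p + 1)))) +
              Sub post (fun O' => cL ps (O ++ (p + 1) :: O'.map (max (p + 1))))) +
            (Sub post (fun O' => cL ps (O ++ g.2 :: O'.map (max (p + 1)))) +
              Sub post (fun O' => cL ps (O ++ g.2 :: (p + 1) :: O'.map (max (p + 1))))) := by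
          intro O
          have : Sub ((true, g.2) :: (false, p + 1) ::
            post.map (fun g => (g.1, max (p + 1) g.2))) (fun O' => cL ps (O ++ O')) =
            X * (1 * Sub (post.map (fun g => (g.1, max (p + 1) g.2))) (fun O' => cL ps (O ++ O')) +
              Sub (post.map (fun g => (g.1, max (p + 1) g.2)))
                (fun O' => cL ps (O ++ (p + 1) :: O'))) +
            (1 * Sub (post.map (fun g => (g.1, max (p + 1) g.2)))
              (fun O' => cL ps (O ++ g.2 :: O')) +
              Sub (post.map (fun g => (g.1, max (p + 1) g.2)))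
                (fun O' => cL ps (O ++ g.2 :: (p + 1) :: O'))) := rfl
          rw [this, Sub_map, Sub_map, Sub_map, Sub_map, one_mul, one_mul]
        apply Sub_congr
        intro O _
        rw [e1, Sub_add, Sub_mul, Sub_add, Sub_add]
      · obtain ⟨t, G', hG1, hG2⟩ := hG
        rcases pre with _ | ⟨b, pre⟩
        · rw [List.nil_append, hG1] at e
          obtain ⟨e3, e4⟩ := List.cons.inj e
          refine ⟨true, (false, p + 1) :: post.map (fun g => (g.1, max (p + 1) g.2)), ?_, ?_⟩
          · rw [List.nil_append, ← e3]
          · intro g' hg'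
            rcases List.mem_cons.1 hg' with rfl | hg'
            · simp
            · rw [List.mem_map] at hg'
              obtain ⟨g'', _, rfl⟩ := hg'
              simp
        · rw [List.cons_append, hG1] at e
          obtain ⟨e3, e4⟩ := List.cons.inj e
          refine ⟨t, pre ++ (true, g.2) :: (false, p + 1) ::
            post.map (fun g => (g.1, max (p + 1) g.2)), ?_, ?_⟩
          · rw [List.cons_append, ← e3]
          · intro g' hg'
            rw [List.mem_append] at hg'
            rcases hg' with hg' | hg'
            · exact hG2 g' (by rw [e4]; exact List.mem_append_left _ hg')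
            · rcases List.mem_cons.1 hg' with rfl | hg'
              · exact hG2 g (by rw [e4]; simp)
              · rcases List.mem_cons.1 hg' with rfl | hg'
                · simp
                · rw [List.mem_map] at hg'
                  obtain ⟨g'', _, rfl⟩ := hg'
                  simp
    · rw [if_neg hg, if_neg hg]

/-! ## Words -/

section Words

variable {α : Type*} (lab pp : α → ℕ)

/-- The insertions of `x` into the reversed word `r`; `z` is the zone of the first gap. -/
def insL (x : α) : ℕ → List α → List (List α)
  | z, [] => if z ≤ pp x then [[x]] else []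
  | z, b :: r => if z ≤ pp x then (x :: b :: r) ::
      (insL x (max z (pp b + 1)) r).map (List.cons b) else []

/-- The gap list of a reversed word. -/
def gaps : ℕ → ℕ → List α → List (Bool × ℕ)
  | z, _, [] => [(false, z)]
  | z, c, b :: r => (decide (c ≤ lab b), z) :: gaps (max z (pp b + 1)) (lab b + 1) r

/-- Descents of a reversed word. -/
def desR : List α → ℕ
  | [] => 0
  | [_] => 0
  | a :: b :: r => (if lab a < lab b then 1 else 0) + desR (b :: r)

/-- Total weight of the completions of a reversed word. -/
noncomputable def TW : List α → List α → ℕ[X]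
  | [] => fun r => X ^ desR lab r
  | x :: js => fun r => ((insL pp x 0 r).map (TW js)).sum

lemma TW_nil (r : List α) : TW lab pp [] r = X ^ desR lab r := rfl

lemma TW_cons (x : α) (js r : List α) :
    TW lab pp (x :: js) r = ((insL pp x 0 r).map (TW lab pp js)).sum := rfl

lemma gaps_map (q : ℕ) : ∀ (r : List α) (z c : ℕ),
    (gaps lab pp z c r).map (fun g => (g.1, max q g.2)) = gaps lab pp (max q z) c r := by
  intro r
  induction r with
  | nil => intro z c; rfl
  | cons b r ih =>
    intro z c
    unfold gaps
    rw [List.map_cons, ih, max_assoc]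

lemma gaps_ge : ∀ (r : List α) (z c : ℕ), ∀ g ∈ gaps lab pp z c r, z ≤ g.2 := by
  intro r
  induction r with
  | nil =>
    intro z c g hg
    unfold gaps at hg
    rw [List.mem_singleton] at hg
    rw [hg]
  | cons b r ih =>
    intro z c g hg
    unfold gaps at hg
    rcases List.mem_cons.1 hg with rfl | hg
    · exact le_refl _
    · exact (le_max_left _ _).trans (ih _ _ g hg)

/-- Insertion in terms of gap lists. -/
theorem ins_gaps (x : α) {M : Type*} [AddCommMonoid M] : ∀ (r : List α) (z c : ℕ)
    (Φ : List (Bool × ℕ) → M), c ≤ lab x → (∀ b ∈ r, lab b < lab x) →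
    ((insL pp x z r).map (fun r' => Φ (gaps lab pp z c r'))).sum =
      pos (gaps lab pp z c r) (fun pre g post => if g.2 ≤ pp x then
        Φ (pre ++ (true, g.2) :: (false, pp x + 1) ::
          post.map (fun g => (g.1, max (pp x + 1) g.2))) else 0) := by
  intro r
  induction r with
  | nil =>
    intro z c Φ hc _
    have e1 : gaps lab pp z c [] = [(false, z)] := rfl
    have e2 : ∀ h : List (Bool × ℕ) → Bool × ℕ → List (Bool × ℕ) → M,
        pos [(false, z)] h = h [] (false, z) [] + 0 := fun _ => rfl
    rw [e1, e2, add_zero]
    simp only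
    by_cases hz : z ≤ pp x
    · have e3 : insL pp x z [] = [[x]] := by rw [insL, if_pos hz]
      have e4 : gaps lab pp z c [x] = [(decide (c ≤ lab x), z), (false, max z (pp x + 1))] := rfl
      rw [if_pos hz, e3, List.map_cons, List.map_nil, List.sum_cons, List.sum_nil, add_zero, e4,
        decide_eq_true hc, max_eq_right (by omega : z ≤ pp x + 1)]
      rfl
    · have e3 : insL pp x z [] = [] := by rw [insL, if_neg hz]
      rw [if_neg hz, e3, List.map_nil, List.sum_nil]
  | cons b r ih =>
    intro z c Φ hc hb
    have hb1 : lab b < lab x := hb b List.mem_cons_self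
    by_cases hz : z ≤ pp x
    · have e1 : insL pp x z (b :: r) = (x :: b :: r) ::
          (insL pp x (max z (pp b + 1)) r).map (List.cons b) := by
        rw [insL, if_pos hz]
      have e2 : gaps lab pp z c (b :: r) =
          (decide (c ≤ lab b), z) :: gaps lab pp (max z (pp b + 1)) (lab b + 1) r := rfl
      rw [e1, List.map_cons, List.sum_cons, List.map_map, e2]
      have e3 : ((fun r' => Φ (gaps lab pp z c r')) ∘ List.cons b) = fun r' =>
          Φ ((decide (c ≤ lab b), z) :: gaps lab pp (max z (pp b + 1)) (lab b + 1) r') := rfl
      rw [e3, ih (max z (pp b + 1)) (lab b + 1) (fun G => Φ ((decide (c ≤ lab b), z) :: G))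
        (by omega) (fun b' hb' => hb b' (List.mem_cons_of_mem _ hb'))]
      rw [pos]
      congr 1
      simp only
      rw [if_pos hz, gaps_map]
      have e4 : gaps lab pp z c (x :: b :: r) = (decide (c ≤ lab x), z) ::
          (decide (lab x + 1 ≤ lab b), max z (pp x + 1)) ::
          gaps lab pp (max (max z (pp x + 1)) (pp b + 1)) (lab b + 1) r := rfl
      rw [e4, decide_eq_true hc, decide_eq_false (by omega), max_eq_right
        (by omega : z ≤ pp x + 1)]
      have e5 : max (pp x + 1) (max z (pp b + 1)) = max (pp x + 1) (pp b + 1) := by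
        rw [← max_assoc, max_eq_left (by omega : z ≤ pp x + 1)]
      rw [e5]
      rfl
    · have e1 : insL pp x z (b :: r) = [] := by
        rw [insL, if_neg hz]
      rw [e1, List.map_nil, List.sum_nil]
      symm
      refine (pos_congr _ _ (fun _ _ _ => 0) ?_).trans (pos_zero _)
      intro pre g post e
      have := gaps_ge lab pp (b :: r) z c g (by rw [e]; simp)
      exact if_neg (by omega)

lemma mem_of_mem_insL (x : α) : ∀ (r : List α) (z : ℕ), ∀ r' ∈ insL pp x z r, ∀ b ∈ r',
    b = x ∨ b ∈ r := by
  intro r
  induction r with
  | nil =>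
    intro z r' hr' b hb
    unfold insL at hr'
    split_ifs at hr'
    · rw [List.mem_singleton] at hr'
      rw [hr', List.mem_singleton] at hb
      exact Or.inl hb
    · simp at hr'
  | cons c r ih =>
    intro z r' hr' b hb
    unfold insL at hr'
    split_ifs at hr'
    · rcases List.mem_cons.1 hr' with rfl | hr'
      · rcases List.mem_cons.1 hb with h | h
        · exact Or.inl h
        · exact Or.inr h
      · rw [List.mem_map] at hr'
        obtain ⟨r'', h1, rfl⟩ := hr'
        rcases List.mem_cons.1 hb with rfl | h
        · exact Or.inr List.mem_cons_self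
        · rcases ih _ r'' h1 b h with h | h
          · exact Or.inl h
          · exact Or.inr (List.mem_cons_of_mem _ h)
    · simp at hr'

lemma count_gaps : ∀ (r : List α) (b : α) (z : ℕ),
    (gaps lab pp z (lab b + 1) r).countP (fun g => g.1) = desR lab (b :: r) := by
  intro r
  induction r with
  | nil => intro b z; simp [gaps, desR]
  | cons c r ih =>
    intro b z
    unfold gaps
    rw [List.countP_cons, ih, desR, add_comm]
    congr 1
    by_cases h : lab b < lab c
    · rw [if_pos h]
      simp [h]
    · rw [if_neg h]
      simp [h]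

theorem TW_eq : ∀ (js r : List α), js.Pairwise (fun x y => lab x < lab y) →
    (∀ x ∈ js, ∀ b ∈ r, lab b < lab x) →
    TW lab pp js r = SG (js.map pp) (gaps lab pp 0 0 r) := by
  intro js
  induction js with
  | nil =>
    intro r _ _
    rw [TW_nil, List.map_nil, SG_nil]
    rcases r with _ | ⟨b, r⟩
    · simp [gaps, desR]
    · have : gaps lab pp 0 0 (b :: r) =
          (decide (0 ≤ lab b), 0) :: gaps lab pp (max 0 (pp b + 1)) (lab b + 1) r := rfl
      rw [this, List.tail_cons, count_gaps]
  | cons x js ih =>
    intro r hjs hr
    rw [List.pairwise_cons] at hjs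
    rw [TW_cons, List.map_cons, SG_cons]
    have h1 : ∀ r' ∈ insL pp x 0 r, TW lab pp js r' =
        (fun r' => SG (js.map pp) (gaps lab pp 0 0 r')) r' := by
      intro r' hr'
      apply ih r' hjs.2
      intro y hy b hb
      rcases mem_of_mem_insL pp x r 0 r' hr' b hb with rfl | h
      · exact hjs.1 y hy
      · exact (hr x List.mem_cons_self b h).trans (hjs.1 y hy)
    rw [List.map_congr_left h1, ins_gaps lab pp x r 0 0 _ (Nat.zero_le _)
      (fun b hb => hr x List.mem_cons_self b hb)]

/-- Everything together: the sum over all words is a counting polynomial. -/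
theorem TW_eq_cm (js : List α) (hjs : js.Pairwise (fun x y => lab x < lab y)) :
    TW lab pp js [] = cm (js.map pp) {0} := by
  rw [TW_eq lab pp js [] hjs (by simp), SG_eq]
  · have h1 : gaps lab pp 0 0 ([] : List α) = [(false, 0)] := rfl
    have h2 : Sub [(false, 0)] (cL (js.map pp)) =
        1 * cL (js.map pp) [] + cL (js.map pp) [0] := rfl
    rw [h1, h2, cL_eq _ _ List.Pairwise.nil, cL_eq _ _ (List.pairwise_singleton _ _)]
    have h3 : cm (js.map pp) (([] : List ℕ) : Multiset ℕ) = 0 := by
      apply cm_zero
      simp
    rw [h3, mul_zero, zero_add]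
    rfl
  · exact ⟨false, [], rfl, by simp⟩

end Words

end Pool.DU31
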